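import Pool.Agent.H78.Star.Defs

/-!
# Star colourings of `2p`-regular graphs with `p + 2` colours

In such a colouring every vertex has `p` neighbours of one colour (`Out`), and its other `p`
neighbours have pairwise distinct colours.
-/

set_option autoImplicit false

namespace Pool.Agent.H78.Star

open Finset

theorem IsStarColouring.path {V : Type*} {k : ℕ} {G : SimpleGraph V} {f : V → Fin k}
    (h : IsStarColouring G f) {a b c d : V} (hab : G.Adj a b) (hbc : G.Adj b c)
    (hcd : G.Adj c d) (hac : a ≠ c) (hbd : b ≠ d) (h1 : f a = f c) : f b ≠ f d := by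
  intro h2
  have had : a ≠ d := by
    intro e
    subst e
    exact h.1 _ _ hab h2.symm
  have h3 := h.2 a b c d hab hbc hcd hac had hbd
  rw [h1, h2] at h3
  have h4 : ({f c, f d, f c, f d} : Finset (Fin k)) ⊆ {f c, f d} := by
    intro x
    simp only [mem_insert, mem_singleton]
    tauto
  have h5 := (card_le_card h4).trans card_le_two
  omega

theorem isStarColouring_of {V : Type*} {k : ℕ} {G : SimpleGraph V} {f : V → Fin k}
    (h1 : ∀ u v, G.Adj u v → f u ≠ f v)
    (h2 : ∀ a b c d, G.Adj a b → G.Adj b c → G.Adj c d → a ≠ c → b ≠ d → f a = f c →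
      f b ≠ f d) : IsStarColouring G f := by
  refine ⟨h1, fun a b c d hab hbc hcd hac _ hbd => ?_⟩
  by_cases e1 : f a = f c
  · have e2 := h2 a b c d hab hbc hcd hac hbd e1
    have hx : ({f a, f b, f d} : Finset (Fin k)) ⊆ {f a, f b, f c, f d} := by
      intro x
      simp only [mem_insert, mem_singleton]
      tauto
    refine le_trans (le_of_eq ?_) (card_le_card hx)
    rw [card_eq_three.2 ⟨f a, f b, f d, h1 _ _ hab, ?_, e2, rfl⟩]
    rw [e1]
    exact h1 _ _ hcd
  · have hx : ({f a, f b, f c} : Finset (Fin k)) ⊆ {f a, f b, f c, f d} := by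
      intro x
      simp only [mem_insert, mem_singleton]
      tauto
    refine le_trans (le_of_eq ?_) (card_le_card hx)
    rw [card_eq_three.2 ⟨f a, f b, f c, h1 _ _ hab, e1, h1 _ _ hbc, rfl⟩]

section

variable {V : Type*} {k : ℕ} (G : SimpleGraph V) (f : V → Fin k)

/-- `v` is a neighbour of `u`, and the only one of its colour. -/
def Uniq (u v : V) : Prop := G.Adj u v ∧ ∀ v', G.Adj u v' → f v' = f v → v' = v

/-- `v` is a neighbour of `u`, and not the only one of its colour. -/
def Out (u v : V) : Prop := G.Adj u v ∧ ¬ Uniq G f u v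

variable {G f}

theorem Out.adj {u v : V} (h : Out G f u v) : G.Adj u v := h.1

theorem uniq_or (hf : IsStarColouring G f) {u v : V} (h : G.Adj u v) :
    Uniq G f u v ∨ Uniq G f v u := by
  by_contra hc
  push Not at hc
  obtain ⟨h1, h2⟩ := hc
  simp only [Uniq, h, true_and, not_forall, h.symm] at h1 h2
  obtain ⟨v', hv', e1, n1⟩ := h1
  obtain ⟨u', hu', e2, n2⟩ := h2
  exact hf.path hv'.symm h hu' n1 (Ne.symm n2) e1 e2.symm

end

section Str

variable {V : Type*} [Fintype V] {p : ℕ} {G : SimpleGraph V} {f : V → Fin (p + 2)}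

open Classical in
theorem card_uniq_le (hp : 2 ≤ p) (hf : IsStarColouring G f)
    (hd : ∀ v, (univ.filter fun w => G.Adj v w).card = 2 * p) (u : V) :
    (univ.filter fun v => Uniq G f u v).card ≤ p := by
  by_contra hc
  push Not at hc
  set S := univ.filter fun v => Uniq G f u v with hS
  have hinj : Set.InjOn f (S : Set V) := by
    intro a ha b hb hab
    have ha' : Uniq G f u a := by simpa [hS] using ha
    have hb' : Uniq G f u b := by simpa [hS] using hb
    exact hb'.2 a ha'.1 hab
  have hcard : (S.image f).card = S.card := card_image_of_injOn hinj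
  have hu : f u ∉ S.image f := by
    intro h
    obtain ⟨v, hv, e⟩ := mem_image.1 h
    have hv' : Uniq G f u v := by simpa [hS] using hv
    exact hf.1 _ _ hv'.1 e.symm
  have hall : insert (f u) (S.image f) = univ := by
    apply eq_univ_of_card
    have h1 : (insert (f u) (S.image f)).card ≤ p + 2 := by
      simpa using card_le_univ (insert (f u) (S.image f))
    rw [card_insert_of_notMem hu] at h1 ⊢
    rw [Fintype.card_fin]
    omega
  have hsub : (univ.filter fun w => G.Adj u w) ⊆ S := by
    intro v hv
    have hv' : G.Adj u v := by simpa using hv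
    have : f v ∈ insert (f u) (S.image f) := by rw [hall]; exact mem_univ _
    rcases mem_insert.1 this with h | h
    · exact absurd h (hf.1 _ _ hv').symm
    · obtain ⟨w, hw, e⟩ := mem_image.1 h
      have hw' : Uniq G f u w := by simpa [hS] using hw
      rw [hw'.2 v hv' e.symm]
      exact hw
  have h1 := card_le_card hsub
  rw [hd u] at h1
  have h2 : (insert (f u) (S.image f)).card ≤ p + 2 := by
    simpa using card_le_univ (insert (f u) (S.image f))
  rw [card_insert_of_notMem hu] at h2
  omega

open Classical in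
theorem str (hp : 2 ≤ p) (hf : IsStarColouring G f)
    (hd : ∀ v, (univ.filter fun w => G.Adj v w).card = 2 * p) :
    (∀ u v, G.Adj u v → ¬ (Uniq G f u v ∧ Uniq G f v u)) ∧
      ∀ u, (univ.filter fun v => Uniq G f u v).card = p := by
  set n := Fintype.card V
  -- ordered pairs
  let P : Finset (V × V) := univ.filter fun q => G.Adj q.1 q.2
  let A : Finset (V × V) := univ.filter fun q => Uniq G f q.1 q.2
  let B : Finset (V × V) := univ.filter fun q => Uniq G f q.2 q.1
  have cardP : P.card = n * (2 * p) := by
    have : P.card = ∑ v : V, (univ.filter fun w => G.Adj v w).card := by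
      rw [← card_sigma]
      refine card_bij' (fun q _ => ⟨q.1, q.2⟩) (fun q _ => (q.1, q.2)) ?_ ?_ ?_ ?_ <;>
        simp [P]
    rw [this, sum_congr rfl (fun v _ => hd v), sum_const, card_univ, smul_eq_mul]
  have cardA : A.card = ∑ v : V, (univ.filter fun w => Uniq G f v w).card := by
    rw [← card_sigma]
    refine card_bij' (fun q _ => ⟨q.1, q.2⟩) (fun q _ => (q.1, q.2)) ?_ ?_ ?_ ?_ <;>
      simp [A]
  have cardB : B.card = A.card := by
    refine card_bij' (fun q _ => (q.2, q.1)) (fun q _ => (q.2, q.1)) ?_ ?_ ?_ ?_ <;>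
      simp [A, B]
  have hPsub : P ⊆ A ∪ B := by
    intro q hq
    have hq' : G.Adj q.1 q.2 := by simpa [P] using hq
    rcases uniq_or hf hq' with h | h
    · exact mem_union_left _ (by simpa [A] using h)
    · exact mem_union_right _ (by simpa [B] using h)
  have hAle : A.card ≤ n * p := by
    rw [cardA]
    calc _ ≤ ∑ _v : V, p := sum_le_sum fun v _ => card_uniq_le hp hf hd v
      _ = n * p := by rw [sum_const, card_univ, smul_eq_mul]
  have h1 := card_le_card hPsub
  have h2 := card_union_add_card_inter A B
  rw [cardP] at h1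
  rw [cardB] at h2
  have h3 : A.card = n * p := by nlinarith
  have h4 : (A ∩ B).card = 0 := by nlinarith
  constructor
  · intro u v _ ⟨ha, hb⟩
    have : (u, v) ∈ A ∩ B := mem_inter.2 ⟨by simpa [A] using ha, by simpa [B] using hb⟩
    rw [card_eq_zero.1 h4] at this
    exact absurd this (notMem_empty _)
  · intro u
    have h5 : ∑ v : V, (univ.filter fun w => Uniq G f v w).card = ∑ _v : V, p := by
      rw [← cardA, h3, sum_const, card_univ, smul_eq_mul]
    exact (sum_eq_sum_iff_of_le fun v _ => card_uniq_le hp hf hd v).1 h5 u (mem_univ u)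

/-- The facts about a star colouring used later. -/
structure Good (G : SimpleGraph V) (f : V → Fin (p + 2)) : Prop where
  proper : ∀ {u v}, G.Adj u v → f u ≠ f v
  out_or : ∀ {u v}, G.Adj u v → Out G f u v ∨ Out G f v u
  not_both : ∀ {u v}, Out G f u v → ¬ Out G f v u
  out_eq : ∀ {u v w}, Out G f u v → Out G f u w → f v = f w
  out_of_eq : ∀ {u v w}, G.Adj u v → G.Adj u w → f v = f w → v ≠ w → Out G f u v
  card_out : ∀ u, ∀ S : Finset V, (∀ v ∈ S, Out G f u v) → S.card ≤ p
  card_in : ∀ u, ∀ S : Finset V, (∀ v ∈ S, Out G f v u) → S.card ≤ p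

theorem good (hp : 2 ≤ p) (hf : IsStarColouring G f)
    (hd : ∀ v, ∀ [DecidablePred (G.Adj v)], (univ.filter fun w => G.Adj v w).card = 2 * p) :
    Good G f := by
  classical
  obtain ⟨h1, h2⟩ := str hp hf fun v => hd v
  have hout : ∀ u, (univ.filter fun v => Out G f u v).card = p := by
    intro u
    have e : (univ.filter fun v => G.Adj u v) =
        (univ.filter fun v => Uniq G f u v) ∪ (univ.filter fun v => Out G f u v) := by
      ext v
      simp only [mem_filter, mem_univ, true_and, mem_union, Out]
      constructor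
      · intro h
        by_cases hu : Uniq G f u v
        · exact Or.inl hu
        · exact Or.inr ⟨h, hu⟩
      · rintro (h | h)
        · exact h.1
        · exact h.1
    have hdis : Disjoint (univ.filter fun v => Uniq G f u v)
        (univ.filter fun v => Out G f u v) := by
      rw [disjoint_left]
      intro v hv hv'
      simp only [mem_filter, mem_univ, true_and, Out] at hv hv'
      exact hv'.2 hv
    have e2 := congrArg card e
    rw [card_union_of_disjoint hdis, hd u, h2 u] at e2
    omega
  have heq : ∀ {u v w}, Out G f u v → Out G f u w → f v = f w := by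
    intro u v w hv hw
    by_contra hne
    set S := univ.filter fun v => Uniq G f u v with hS
    have hinj : Set.InjOn f (S : Set V) := by
      intro a ha b hb hab
      have ha' : Uniq G f u a := by simpa [hS] using ha
      have hb' : Uniq G f u b := by simpa [hS] using hb
      exact hb'.2 a ha'.1 hab
    have hcard : (S.image f).card = S.card := card_image_of_injOn hinj
    have hnot : ∀ x, Out G f u x → f x ∉ S.image f := by
      intro x hx h
      obtain ⟨y, hy, e⟩ := mem_image.1 h
      have hy' : Uniq G f u y := by simpa [hS] using hy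
      have : x = y := hy'.2 x hx.1 e.symm
      subst this
      exact hx.2 hy'
    have hu : f u ∉ S.image f := by
      intro h
      obtain ⟨y, hy, e⟩ := mem_image.1 h
      have hy' : Uniq G f u y := by simpa [hS] using hy
      exact hf.1 _ _ hy'.1 e.symm
    have hc : (insert (f u) (insert (f v) (insert (f w) (S.image f)))).card = p + 3 := by
      rw [card_insert_of_notMem, card_insert_of_notMem, card_insert_of_notMem, hcard, hS, h2 u]
      · exact hnot w hw
      · simp only [mem_insert, not_or]
        exact ⟨hne, hnot v hv⟩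
      · simp only [mem_insert, not_or]
        exact ⟨hf.1 _ _ hv.1, hf.1 _ _ hw.1, hu⟩
    have hle := card_le_univ (insert (f u) (insert (f v) (insert (f w) (S.image f))))
    rw [hc, Fintype.card_fin] at hle
    omega
  refine ⟨fun {u v} h => hf.1 u v h, ?_, ?_, heq, ?_, ?_, ?_⟩
  · intro u v h
    by_contra hc
    simp only [Out, h, h.symm, true_and, not_or, not_not] at hc
    exact h1 u v h hc
  · intro u v h h'
    rcases uniq_or hf h.1 with hu | hu
    · exact h.2 hu
    · exact h'.2 hu
  · intro u v w hv hw e hne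
    refine ⟨hv, fun hu => hne ?_⟩
    exact (hu.2 w hw e.symm).symm
  · intro u S hS
    rw [← hout u]
    exact card_le_card fun v hv => by simpa using hS v hv
  · intro u S hS
    rw [← h2 u]
    refine card_le_card fun v hv => ?_
    have h := hS v hv
    rcases uniq_or hf h.1 with hu | hu
    · exact absurd hu h.2
    · simpa using hu

end Str

section Block

variable {V : Type*} {p : ℕ} {G : SimpleGraph V} {f : V → Fin (p + 2)}

/-- In a complete bipartite subgraph `K_{p,p}`, `p ≥ 3`, all edges point the same way. -/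
theorem block (hp : 3 ≤ p) (hG : Good G f) (A B : Finset V) (hA : A.card = p) (hB : B.card = p)
    (hAB : ∀ a ∈ A, ∀ b ∈ B, G.Adj a b) :
    (∀ a ∈ A, ∀ b ∈ B, Out G f a b) ∨ ∀ a ∈ A, ∀ b ∈ B, Out G f b a := by
  classical
  have key : ∀ A B : Finset V, A.card = p → B.card = p → (∀ a ∈ A, ∀ b ∈ B, G.Adj a b) →
      (∃ a ∈ A, ∃ b ∈ B, ∃ b' ∈ B, b ≠ b' ∧ Out G f a b ∧ Out G f a b') →
      ∀ a ∈ A, ∀ b ∈ B, Out G f a b := by
    rintro A B hA hB hAB ⟨a, ha, b, hb, b', hb', hne, h1, h2⟩
    have hc := hG.out_eq h1 h2
    have hall : ∀ x ∈ A, Out G f x b := fun x hx =>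
      hG.out_of_eq (hAB x hx b hb) (hAB x hx b' hb') hc hne
    intro x hx y hy
    by_contra hno
    have hyb : y ≠ b := by
      rintro rfl
      exact hno (hall x hx)
    have hfy : f y ≠ f b := by
      intro e
      exact hno (hG.out_of_eq (hAB x hx y hy) (hAB x hx b hb) e hyb)
    have hin : ∀ z ∈ A, Out G f y z := by
      intro z hz
      rcases hG.out_or (hAB z hz y hy) with h | h
      · exact absurd (hG.out_eq h (hall z hz)) hfy
      · exact h
    obtain ⟨z, hz, w, hw, hzw⟩ := one_lt_card.1 (by omega : 1 < A.card)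
    have e := hG.out_eq (hin z hz) (hin w hw)
    exact hG.not_both (hall z hz)
      (hG.out_of_eq (hAB z hz b hb).symm (hAB w hw b hb).symm e hzw)
  by_cases h1 : ∃ a ∈ A, ∃ b ∈ B, ∃ b' ∈ B, b ≠ b' ∧ Out G f a b ∧ Out G f a b'
  · exact Or.inl (key A B hA hB hAB h1)
  by_cases h2 : ∃ b ∈ B, ∃ a ∈ A, ∃ a' ∈ A, a ≠ a' ∧ Out G f b a ∧ Out G f b a'
  · exact Or.inr fun a ha b hb => key B A hB hA (fun b hb a ha => (hAB a ha b hb).symm) h2 b hb
      a ha
  exfalso
  have c1 : ((A ×ˢ B).filter fun q => Out G f q.1 q.2).card ≤ p := by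
    refine (card_le_card_of_injOn (t := A) Prod.fst (fun q hq => ?_) ?_).trans hA.le
    · exact (mem_product.1 (mem_filter.1 hq).1).1
    · intro q hq r hr hqr
      have hq' := mem_filter.1 (mem_coe.1 hq)
      have hr' := mem_filter.1 (mem_coe.1 hr)
      by_contra hne
      refine h1 ⟨q.1, (mem_product.1 hq'.1).1, q.2, (mem_product.1 hq'.1).2, r.2,
        (mem_product.1 hr'.1).2, ?_, hq'.2, ?_⟩
      · intro e
        exact hne (Prod.ext hqr e)
      · rw [hqr]
        exact hr'.2
  have c2 : ((A ×ˢ B).filter fun q => Out G f q.2 q.1).card ≤ p := by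
    refine (card_le_card_of_injOn (t := B) Prod.snd (fun q hq => ?_) ?_).trans hB.le
    · exact (mem_product.1 (mem_filter.1 hq).1).2
    · intro q hq r hr hqr
      have hq' := mem_filter.1 (mem_coe.1 hq)
      have hr' := mem_filter.1 (mem_coe.1 hr)
      by_contra hne
      refine h2 ⟨q.2, (mem_product.1 hq'.1).2, q.1, (mem_product.1 hq'.1).1, r.1,
        (mem_product.1 hr'.1).1, ?_, hq'.2, ?_⟩
      · intro e
        exact hne (Prod.ext e hqr)
      · rw [hqr]
        exact hr'.2
  have c3 : (A ×ˢ B) ⊆ ((A ×ˢ B).filter fun q => Out G f q.1 q.2) ∪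
      ((A ×ˢ B).filter fun q => Out G f q.2 q.1) := by
    intro q hq
    have hq' := mem_product.1 hq
    rcases hG.out_or (hAB q.1 hq'.1 q.2 hq'.2) with h | h
    · exact mem_union_left _ (mem_filter.2 ⟨hq, h⟩)
    · exact mem_union_right _ (mem_filter.2 ⟨hq, h⟩)
  have c4 := card_le_card c3
  have c5 := card_union_le ((A ×ˢ B).filter fun q => Out G f q.1 q.2)
    ((A ×ˢ B).filter fun q => Out G f q.2 q.1)
  rw [card_product, hA, hB] at c4
  nlinarith

end Block

end Pool.Agent.H78.Star
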