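import Pool.Agent.H78.Star.Net

/-!
# Completeness: a proper colouring gives a star colouring of the graph of the reduction
-/

set_option autoImplicit false

namespace Pool.Agent.H78.Star

open Finset

theorem exists_av {k : ℕ} (hk : 5 ≤ k) (a b c d : Fin k) :
    ∃ x : Fin k, x ≠ a ∧ x ≠ b ∧ x ≠ c ∧ x ≠ d := by
  by_contra hcon
  push Not at hcon
  have h : (univ : Finset (Fin k)) ⊆ {a, b, c, d} := by
    intro x _
    simp only [mem_insert, mem_singleton]
    have := hcon x
    tauto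
  have h1 := card_le_card h
  have h2 : ({a, b, c, d} : Finset (Fin k)).card ≤ 4 := card_le_four
  rw [card_univ, Fintype.card_fin] at h1
  omega

theorem exists_ext {k : ℕ} (hk : 5 ≤ k) (v : ℕ → Fin k)
    (h : ∀ i j : ℕ, i < 4 → j < 4 → i ≠ j → v i ≠ v j) :
    ∃ b : ℕ → Fin k, (∀ i j, i < k → j < k → i ≠ j → b i ≠ b j) ∧ ∀ i < 4, b i = v i := by
  classical
  obtain ⟨g, hg⟩ := exists_equiv_extend_of_card_eq (α := Fin k) (β := Fin k) (t := univ)
    (by rw [card_univ]) (s := univ.filter fun i : Fin k => i.val < 4)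
    (f := fun i => v i.val) (subset_univ _) (by
      intro i hi j hj e
      simp only [coe_filter, mem_univ, true_and, Set.mem_ofPred_eq] at hi hj
      by_contra hne
      exact h i.val j.val hi hj (fun hh => hne (Fin.ext hh)) e)
  refine ⟨fun i => if hi : i < k then (g ⟨i, hi⟩ : Fin k) else v i, ?_, ?_⟩
  · intro i j hi hj hne e
    dsimp only at e
    rw [dif_pos hi, dif_pos hj] at e
    have := g.injective (Subtype.ext e)
    exact hne (congrArg Fin.val this)
  · intro i hi
    dsimp only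
    have hik : i < k := by omega
    rw [dif_pos hik]
    exact hg ⟨i, hik⟩ (by simpa using hi)

theorem complete {m N k : ℕ} {ea eb : ℕ → ℕ} (hk : 5 ≤ k) (ha : ∀ t < N, ea t < m)
    (hb : ∀ t < N, eb t < m) (hab : ∀ t < N, ea t ≠ eb t) (c : ℕ → Fin k)
    (hc : ∀ t < N, c (ea t) ≠ c (eb t)) :
    ∃ f : Arc m N k → Fin k, IsStarColouring (graph m N k ea eb) f := by
  classical
  choose av av1 av2 av3 av4 using exists_av hk
  let γ : ℕ → Fin k := fun t => av (c (ea t)) (c (eb t)) (c (ea t)) (c (ea t))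
  let δ : ℕ → Fin k := fun t => av (c (ea t)) (c (eb t)) (γ t) (γ t)
  let η : ℕ → ℕ → Fin k := fun x t =>
    if x = ea t then γ t else if x = eb t then δ t else av (c x) (c x) (c x) (c x)
  let ξ : ℕ → ℕ → Fin k := fun x t =>
    Nat.rec (av (c x) (η x 0) (η x 0) (η x 0)) (fun t y => av (c x) (η x t) (η x (t + 1)) y) t
  have ξ0 : ∀ x, ξ x 0 = av (c x) (η x 0) (η x 0) (η x 0) := fun x => rfl
  have ξs : ∀ x t, ξ x (t + 1) = av (c x) (η x t) (η x (t + 1)) (ξ x t) := fun x t => rfl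
  have hη : ∀ x t, η x t ≠ c x := by
    intro x t
    by_cases h1 : x = ea t
    · have e : η x t = γ t := if_pos h1
      rw [e, h1]
      exact av1 _ _ _ _
    · by_cases h2 : x = eb t
      · have e : η x t = δ t := by simp only [η]; rw [if_neg h1, if_pos h2]
        rw [e, h2]
        exact av2 _ _ _ _
      · have e : η x t = av (c x) (c x) (c x) (c x) := by
          simp only [η]; rw [if_neg h1, if_neg h2]
        rw [e]
        exact av1 _ _ _ _
  have hξc : ∀ x t, ξ x t ≠ c x := by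
    intro x t
    cases t with
    | zero => rw [ξ0]; exact av1 _ _ _ _
    | succ t => rw [ξs]; exact av1 _ _ _ _
  have hξη : ∀ x t, ξ x t ≠ η x t := by
    intro x t
    cases t with
    | zero => rw [ξ0]; exact av2 _ _ _ _
    | succ t => rw [ξs]; exact av3 _ _ _ _
  have hξη' : ∀ x t, ξ x (t + 1) ≠ η x t := by
    intro x t
    rw [ξs]; exact av2 _ _ _ _
  have hξξ : ∀ x t, ξ x (t + 1) ≠ ξ x t := by
    intro x t
    rw [ξs]; exact av4 _ _ _ _
  have four : ∀ i : ℕ, i < 4 → i = 0 ∨ i = 1 ∨ i = 2 ∨ i = 3 := by intro i hi; omega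
  have hV : ∀ x t, ∃ b : ℕ → Fin k, (∀ i j, i < k → j < k → i ≠ j → b i ≠ b j) ∧
      b 0 = c x ∧ b 1 = ξ x (t + 1) ∧ b 2 = ξ x t ∧ b 3 = η x t := by
    intro x t
    obtain ⟨b, h1, h2⟩ := exists_ext hk (fun i => if i = 0 then c x else if i = 1 then
      ξ x (t + 1) else if i = 2 then ξ x t else η x t) (by
        intro i j hi hj hij
        rcases four i hi with rfl | rfl | rfl | rfl <;> rcases four j hj with rfl | rfl | rfl | rfl
        all_goals first
          | exact absurd rfl hij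
          | simp only [OfNat.ofNat_ne_zero, OfNat.ofNat_ne_one, OfNat.one_ne_ofNat,
              one_ne_zero, if_true, if_false, Nat.reduceEqDiff, ite_true, ite_false,
              zero_ne_one, OfNat.zero_ne_ofNat, Nat.succ_ne_self]
        · exact (hξc x (t + 1)).symm
        · exact (hξc x t).symm
        · exact (hη x t).symm
        · exact hξc x (t + 1)
        · exact hξξ x t
        · exact hξη' x t
        · exact hξc x t
        · exact (hξξ x t).symm
        · exact hξη x t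
        · exact hη x t
        · exact (hξη' x t).symm
        · exact (hξη x t).symm)
    refine ⟨b, h1, ?_, ?_, ?_, ?_⟩
    · rw [h2 0 (by omega)]; rfl
    · rw [h2 1 (by omega)]; rfl
    · rw [h2 2 (by omega)]; rfl
    · rw [h2 3 (by omega)]; rfl
  have hE : ∀ t, ∃ b : ℕ → Fin k, t < N → (∀ i j, i < k → j < k → i ≠ j → b i ≠ b j) ∧
      b 0 = c (ea t) ∧ b 1 = c (eb t) ∧ b 2 = γ t ∧ b 3 = δ t := by
    intro t
    by_cases ht : t < N
    swap
    · exact ⟨fun _ => c 0, fun h => absurd h ht⟩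
    have q1 : γ t ≠ c (ea t) := av1 _ _ _ _
    have q2 : γ t ≠ c (eb t) := av2 _ _ _ _
    have q3 : δ t ≠ c (ea t) := av1 _ _ _ _
    have q4 : δ t ≠ c (eb t) := av2 _ _ _ _
    have q5 : δ t ≠ γ t := av3 _ _ _ _
    have q6 := hc t ht
    obtain ⟨b, h1, h2⟩ := exists_ext hk (fun i => if i = 0 then c (ea t) else if i = 1 then
      c (eb t) else if i = 2 then γ t else δ t) (by
        intro i j hi hj hij
        rcases four i hi with rfl | rfl | rfl | rfl <;> rcases four j hj with rfl | rfl | rfl | rfl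
        all_goals first
          | exact absurd rfl hij
          | simp only [OfNat.ofNat_ne_zero, OfNat.ofNat_ne_one, OfNat.one_ne_ofNat,
              one_ne_zero, if_true, if_false, Nat.reduceEqDiff, ite_true, ite_false,
              zero_ne_one, OfNat.zero_ne_ofNat, Nat.succ_ne_self]
        · exact q6
        · exact q1.symm
        · exact q3.symm
        · exact q6.symm
        · exact q2.symm
        · exact q4.symm
        · exact q1
        · exact q2
        · exact q5.symm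
        · exact q3
        · exact q4
        · exact q5)
    refine ⟨b, fun _ => ⟨h1, ?_, ?_, ?_, ?_⟩⟩
    · rw [h2 0 (by omega)]; rfl
    · rw [h2 1 (by omega)]; rfl
    · rw [h2 2 (by omega)]; rfl
    · rw [h2 3 (by omega)]; rfl
  choose bV bV1 bV2 bV3 bV4 bV5 using hV
  choose bE hbE using hE
  let B : ℕ → ℕ → ℕ → Fin k := fun x t => if x = m then bE t else bV x t
  have hinj : ∀ x t i j, t < N → i < k → j < k → i ≠ j → B x t i ≠ B x t j := by
    intro x t i j ht hi hj hij
    by_cases hx : x = m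
    · simp only [B]; rw [if_pos hx]; exact (hbE t ht).1 i j hi hj hij
    · simp only [B]; rw [if_neg hx]; exact bV1 x t i j hi hj hij
  have BV : ∀ x t, x < m → B x t = bV x t := fun x t hx => by
    simp only [B]; rw [if_neg (by omega)]
  have BE : ∀ t, B m t = bE t := fun t => if_pos rfl
  -- consistency
  have cons : ∀ q : Tup, Valid m N k q →
      B q.1 q.2.1 q.2.2.1 = B (sw m N ea eb q).1 (sw m N ea eb q).2.1 (sw m N ea eb q).2.2.1 ∧
      B q.1 q.2.1 q.2.2.2.1 =
        B (sw m N ea eb q).1 (sw m N ea eb q).2.1 (sw m N ea eb q).2.2.2.1 := by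
    intro q hq
    rcases sw_cases ha hb hq with e | ⟨x, t, hx, e0, e⟩ | ⟨x, t, hx, e0, e⟩ | ⟨t, ht, e0, e⟩ |
      ⟨t, ht, e0, e⟩ | ⟨t, ht, e0, e⟩ | ⟨t, ht, e0, e⟩ <;> rw [e]
    · exact ⟨rfl, rfl⟩
    · rw [e0]
      dsimp only
      rw [BV _ _ hx, BV _ _ hx, bV3, bV4, bV2, bV2]
      exact ⟨rfl, rfl⟩
    · rw [e0]
      dsimp only
      rw [BV _ _ hx, BV _ _ hx, bV3, bV4, bV2, bV2]
      exact ⟨rfl, rfl⟩
    · rw [e0]
      dsimp only
      rw [BV _ _ (ha t ht), BE, bV5, bV2, (hbE t ht).2.1, (hbE t ht).2.2.2.1]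
      exact ⟨if_pos rfl, rfl⟩
    · rw [e0]
      dsimp only
      rw [BV _ _ (ha t ht), BE, bV5, bV2, (hbE t ht).2.1, (hbE t ht).2.2.2.1]
      exact ⟨(if_pos rfl).symm, rfl⟩
    · rw [e0]
      dsimp only
      rw [BV _ _ (hb t ht), BE, bV5, bV2, (hbE t ht).2.2.1, (hbE t ht).2.2.2.2]
      refine ⟨?_, rfl⟩
      simp only [η]
      rw [if_neg (hab t ht).symm, if_pos True.intro]
    · rw [e0]
      dsimp only
      rw [BV _ _ (hb t ht), BE, bV5, bV2, (hbE t ht).2.2.1, (hbE t ht).2.2.2.2]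
      refine ⟨?_, rfl⟩
      simp only [η]
      rw [if_neg (hab t ht).symm, if_pos True.intro]
  refine ⟨fun a => B a.1.1 a.1.2.1 a.1.2.2.1,
    isStarColouring_line (isLine hk ha hb hab) _ ?_ ?_ ?_⟩
  · rintro ⟨a, hma⟩ ⟨b, hmb⟩ h
    have ha' := mem_arcs.1 hma
    have hs := sw_valid hk ha hb ha'
    simp only [hd, h0, tl, Prod.mk.injEq] at h
    obtain ⟨e1, e2, e3, e4⟩ := h
    dsimp only
    rw [(cons a ha').1, ← e1, ← e2, ← e3]
    exact hinj _ _ _ _ hs.2.1 hs.2.2.1 hs.2.2.2.1 hs.2.2.2.2.2.1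
  · rintro ⟨a, hma⟩ ⟨b, hmb⟩ ⟨d, hmd⟩ h h' hne
    have ha' := mem_arcs.1 hma
    have hd' := mem_arcs.1 hmd
    have hs := sw_valid hk ha hb ha'
    have hs' := sw_valid hk ha hb hd'
    simp only [hd, h0, tl, Prod.mk.injEq] at h h'
    obtain ⟨e1, e2, e3, e4⟩ := h
    obtain ⟨e1', e2', e3', e4'⟩ := h'
    dsimp only
    rw [(cons a ha').1, (cons d hd').1, e1, e2, e1', e2']
    refine hinj _ _ _ _ (mem_arcs.1 hmb).2.1 hs.2.2.1 hs'.2.2.1 fun ei => hne ?_
    have : sw m N ea eb a = sw m N ea eb d := by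
      refine Prod.ext (e1.trans e1'.symm) (Prod.ext (e2.trans e2'.symm) (Prod.ext ei
        (Prod.ext (e3.trans e3'.symm) (e4.trans e4'.symm))))
    apply Subtype.ext
    dsimp only
    rw [← sw_sw ha hb hab ha', ← sw_sw ha hb hab hd', this]
  · rintro ⟨a, hma⟩ ⟨b, hmb⟩ ⟨d, hmd⟩ h h'
    have ha' := mem_arcs.1 hma
    have hb' := mem_arcs.1 hmb
    have hs := sw_valid hk ha hb ha'
    simp only [hd, h0, tl, Prod.mk.injEq] at h h'
    obtain ⟨e1, e2, e3, e4⟩ := h
    obtain ⟨e1', e2', e3', e4'⟩ := h'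
    dsimp only
    rw [(cons a ha').1, ← e1', ← e2', ← e3', ← (cons b hb').2, e1, e2, ← e4]
    exact hinj _ _ _ _ hb'.2.1 hs.2.2.1 hs.2.2.2.2.1 hs.2.2.2.2.2.2.2

end Pool.Agent.H78.Star
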