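import Mathlib

/-!
# Star colourings, and graphs as words
-/

set_option autoImplicit false

namespace Pool.Agent.H78.Star

/-- A star `k`-colouring: a proper colouring in which every path on four vertices receives at
least three distinct colours. -/
def IsStarColouring {V : Type*} {k : ℕ} (G : SimpleGraph V) (f : V → Fin k) : Prop :=
  (∀ u v, G.Adj u v → f u ≠ f v) ∧
    ∀ a b c d, G.Adj a b → G.Adj b c → G.Adj c d → a ≠ c → a ≠ d → b ≠ d →
      3 ≤ ({f a, f b, f c, f d} : Finset (Fin k)).card

open Classical in
/-- The word of a graph with vertices `0, ..., n - 1`: its adjacency matrix, row by row. -/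
noncomputable def matWord {n : ℕ} (G : SimpleGraph (Fin n)) : List Bool :=
  (List.finRange n).flatMap fun u => (List.finRange n).map fun v => decide (G.Adj u v)

/-- The words of the `d`-regular graphs. -/
def regularWords (d : ℕ) : Set (List Bool) :=
  {w | ∃ (n : ℕ) (G : SimpleGraph (Fin n)), matWord G = w ∧ ∀ v, (G.neighborSet v).ncard = d}

/-- The words of the graphs with a star `k`-colouring. -/
def starWords (k : ℕ) : Set (List Bool) :=
  {w | ∃ (n : ℕ) (G : SimpleGraph (Fin n)), matWord G = w ∧
    ∃ f : Fin n → Fin k, IsStarColouring G f}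

end Pool.Agent.H78.Star
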