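import Pool.Agent.H78.Star.Basic

/-!
# Star colourings of underlying graphs of line digraphs
-/

set_option autoImplicit false

namespace Pool.Agent.H78.Star

open Finset

/-- `G` is the underlying graph of the line digraph of a digraph with arc set `V`, vertex set (in)
`X`, tails `tl` and heads `hd`, all in- and out-degrees being `p`, without loops and digons. -/
structure IsLine {V X : Type*} (G : SimpleGraph V) (tl hd : V → X) (p : ℕ) : Prop where
  adj : ∀ a b, G.Adj a b ↔ hd a = tl b ∨ hd b = tl a
  nodig : ∀ a b, hd a = tl b → hd b ≠ tl a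
  tt : ∀ a, ∃ S : Finset V, S.card = p ∧ ∀ b, b ∈ S ↔ tl b = tl a
  th : ∀ a, ∃ S : Finset V, S.card = p ∧ ∀ b, b ∈ S ↔ tl b = hd a
  ht : ∀ a, ∃ S : Finset V, S.card = p ∧ ∀ b, b ∈ S ↔ hd b = tl a
  hh : ∀ a, ∃ S : Finset V, S.card = p ∧ ∀ b, b ∈ S ↔ hd b = hd a

theorem IsLine.symm {V X : Type*} {G : SimpleGraph V} {tl hd : V → X} {p : ℕ}
    (h : IsLine G tl hd p) : IsLine G hd tl p where
  adj a b := by
    rw [h.adj]
    constructor
    · rintro (e | e)
      · exact Or.inr e.symm
      · exact Or.inl e.symm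
    · rintro (e | e)
      · exact Or.inr e.symm
      · exact Or.inl e.symm
  nodig a b e e' := h.nodig b a e.symm e'.symm
  tt := h.hh
  th := h.ht
  ht := h.th
  hh := h.tt

theorem IsLine.card_adj {V X : Type*} [Fintype V] {G : SimpleGraph V} {tl hd : V → X} {p : ℕ}
    (h : IsLine G tl hd p) (v : V) [DecidablePred (G.Adj v)] :
    (univ.filter fun w => G.Adj v w).card = 2 * p := by
  classical
  obtain ⟨S, hS, hS'⟩ := h.th v
  obtain ⟨T, hT, hT'⟩ := h.ht v
  have e : (univ.filter fun w => G.Adj v w) = S ∪ T := by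
    ext w
    simp only [mem_filter, mem_univ, true_and, mem_union, hS', hT', h.adj]
    constructor
    · rintro (e | e)
      · exact Or.inl e.symm
      · exact Or.inr e
    · rintro (e | e)
      · exact Or.inl e.symm
      · exact Or.inr e
  rw [e, card_union_of_disjoint, hS, hT]
  · ring
  · rw [disjoint_left]
    intro w hw hw'
    exact h.nodig v w ((hS' w).1 hw).symm ((hT' w).1 hw')

section

variable {V X : Type*} {p : ℕ} {G : SimpleGraph V} {f : V → Fin (p + 2)}

/-- All edges at `a` point along the digraph. -/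
def Plus (G : SimpleGraph V) (f : V → Fin (p + 2)) (tl hd : V → X) (a : V) : Prop :=
  (∀ b, tl b = hd a → Out G f a b) ∧ ∀ b, hd b = tl a → Out G f b a

variable {tl hd : V → X}

theorem plus_or (hp : 3 ≤ p) (hG : Good G f) (hl : IsLine G tl hd p) (a : V) :
    Plus G f tl hd a ∨ Plus G f hd tl a := by
  classical
  obtain ⟨A, hA, hA'⟩ := hl.hh a
  obtain ⟨B, hB, hB'⟩ := hl.th a
  obtain ⟨A2, hA2, hA2'⟩ := hl.ht a
  obtain ⟨B2, hB2, hB2'⟩ := hl.tt a
  have h1 := block hp hG A B hA hB fun x hx y hy =>
    (hl.adj x y).2 (Or.inl (((hA' x).1 hx).trans ((hB' y).1 hy).symm))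
  rcases h1 with h1 | h1
  · left
    have ha : ∀ b, tl b = hd a → Out G f a b := fun b hb =>
      h1 a ((hA' a).2 rfl) b ((hB' b).2 hb)
    refine ⟨ha, fun c hc => ?_⟩
    rcases hG.out_or ((hl.adj c a).2 (Or.inl hc)) with h | h
    · exact h
    · exfalso
      have hcB : c ∉ B := fun hcB => hl.nodig a c ((hB' c).1 hcB).symm hc
      have := hG.card_out a (insert c B) fun x hx => by
        rcases mem_insert.1 hx with rfl | hx
        · exact h
        · exact ha x ((hB' x).1 hx)
      rw [card_insert_of_notMem hcB, hB] at this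
      omega
  · right
    have ha : ∀ b, tl b = hd a → Out G f b a := fun b hb =>
      h1 a ((hA' a).2 rfl) b ((hB' b).2 hb)
    have h2 := block hp hG A2 B2 hA2 hB2 fun x hx y hy =>
      (hl.adj x y).2 (Or.inl (((hA2' x).1 hx).trans ((hB2' y).1 hy).symm))
    rcases h2 with h2 | h2
    · exfalso
      have hdis : Disjoint B A2 := by
        rw [disjoint_left]
        intro c hc hc'
        exact hl.nodig a c ((hB' c).1 hc).symm ((hA2' c).1 hc')
      have := hG.card_in a (B ∪ A2) fun x hx => by
        rcases mem_union.1 hx with hx | hx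
        · exact ha x ((hB' x).1 hx)
        · exact h2 x hx a ((hB2' a).2 rfl)
      rw [card_union_of_disjoint hdis, hB, hA2] at this
      omega
    · exact ⟨fun b hb => h2 b ((hA2' b).2 hb) a ((hB2' a).2 rfl), ha⟩

theorem Plus.fwd (hp : 3 ≤ p) (hG : Good G f) (hl : IsLine G tl hd p) {a b : V}
    (h : Plus G f tl hd a) (e : hd a = tl b) : Plus G f tl hd b := by
  rcases plus_or hp hG hl b with hb | hb
  · exact hb
  · exact absurd (hb.1 a e) (hG.not_both (h.1 b e.symm))

theorem Plus.bwd (hp : 3 ≤ p) (hG : Good G f) (hl : IsLine G tl hd p) {a b : V}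
    (h : Plus G f tl hd b) (e : hd a = tl b) : Plus G f tl hd a := by
  rcases plus_or hp hG hl a with ha | ha
  · exact ha
  · exact absurd (ha.2 b e.symm) (hG.not_both (h.2 a e))

/-- The main consequence: after two arcs with the same tail the colour is the same. -/
theorem Plus.same (hp : 3 ≤ p) (hG : Good G f) (hl : IsLine G tl hd p) {a a' b b' : V}
    (h : Plus G f tl hd a) (e : tl a = tl a') (hb : tl b = hd a) (hb' : tl b' = hd a') :
    f b = f b' := by
  classical
  obtain ⟨S, hS, hS'⟩ := hl.ht a
  obtain ⟨c, hc⟩ : S.Nonempty := card_pos.1 (by omega)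
  have hca : hd c = tl a := (hS' c).1 hc
  have hc' : Plus G f tl hd c := h.bwd hp hG hl hca
  have ha' : Plus G f tl hd a' := hc'.fwd hp hG hl (hca.trans e)
  have haa : f a = f a' := hG.out_eq (hc'.1 a hca.symm) (hc'.1 a' (hca.trans e).symm)
  have hinj : Set.InjOn f (S : Set V) := by
    intro x hx y hy hxy
    by_contra hne
    have hx' := (hS' x).1 hx
    have hy' := (hS' y).1 hy
    exact hG.not_both (h.2 x hx') (hG.out_of_eq ((hl.adj a x).2 (Or.inr hx'))
      ((hl.adj a y).2 (Or.inr hy')) hxy hne)
  have hcard : (S.image f).card = S.card := card_image_of_injOn hinj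
  have hnot : ∀ a b : V, Plus G f tl hd a → (∀ x, x ∈ S ↔ hd x = tl a) → tl b = hd a →
      f b ∉ S.image f := by
    intro a b ha hSa hb hmem
    obtain ⟨x, hx, hxe⟩ := mem_image.1 hmem
    have hx' := (hSa x).1 hx
    refine hG.not_both (ha.2 x hx') (hG.out_of_eq ((hl.adj a x).2 (Or.inr hx'))
      ((hl.adj a b).2 (Or.inl hb.symm)) hxe ?_)
    rintro rfl
    exact hl.nodig a x hb.symm hx'
  have ha0 : f a ∉ S.image f := by
    intro hmem
    obtain ⟨x, hx, hxe⟩ := mem_image.1 hmem
    exact hG.proper ((hl.adj a x).2 (Or.inr ((hS' x).1 hx))) hxe.symm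
  have hba : f b ≠ f a := fun hh => hG.proper ((hl.adj a b).2 (Or.inl hb.symm)) hh.symm
  have hba' : f b' ≠ f a := fun hh => hG.proper ((hl.adj a' b').2 (Or.inl hb'.symm))
    (haa ▸ hh.symm)
  by_contra hne
  have hc : (insert (f b) (insert (f b') (insert (f a) (S.image f)))).card = p + 3 := by
    rw [card_insert_of_notMem, card_insert_of_notMem, card_insert_of_notMem, hcard, hS]
    · exact ha0
    · simp only [mem_insert, not_or]
      exact ⟨hba', hnot a' b' ha' (fun x => by rw [hS', e]) hb'⟩
    · simp only [mem_insert, not_or]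
      exact ⟨hne, hba, hnot a b h hS' hb⟩
  have hle := card_le_univ (insert (f b) (insert (f b') (insert (f a) (S.image f))))
  rw [hc, Fintype.card_fin] at hle
  omega

/-- Arcs with the same tail have the same colour. -/
theorem Plus.tail (hp : 3 ≤ p) (hG : Good G f) (hl : IsLine G tl hd p) {a a' : V}
    (h : Plus G f tl hd a) (e : tl a = tl a') : f a = f a' := by
  obtain ⟨S, hS, hS'⟩ := hl.ht a
  obtain ⟨c, hc⟩ : S.Nonempty := card_pos.1 (by omega)
  have hca : hd c = tl a := (hS' c).1 hc
  have hc' : Plus G f tl hd c := h.bwd hp hG hl hca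
  exact hG.out_eq (hc'.1 a hca.symm) (hc'.1 a' (hca.trans e).symm)

end

/-- Completeness: a colouring of a line digraph in which two different neighbours of the same
colour of an arc `b` always have the head of `b` as their tail is a star colouring. -/
theorem isStarColouring_line {V X : Type*} {k p : ℕ} {G : SimpleGraph V} {tl hd : V → X}
    (hl : IsLine G tl hd p) (f : V → Fin k) (h1 : ∀ a b, hd a = tl b → f a ≠ f b)
    (h2 : ∀ a b c, hd a = tl b → hd c = tl b → a ≠ c → f a ≠ f c)
    (h3 : ∀ a b c, hd a = tl b → hd b = tl c → f a ≠ f c) : IsStarColouring G f := by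
  have key : ∀ a b c, G.Adj a b → G.Adj b c → a ≠ c → f a = f c → hd b = tl c := by
    intro a b c hab hbc hac e
    rcases (hl.adj b c).1 hbc with h | h
    · exact h
    · exfalso
      rcases (hl.adj a b).1 hab with h' | h'
      · exact h2 a b c h' h hac e
      · exact h3 c b a h h' e.symm
  refine isStarColouring_of ?_ ?_
  · intro u v huv
    rcases (hl.adj u v).1 huv with h | h
    · exact h1 u v h
    · exact (h1 v u h).symm
  · intro a b c d hab hbc hcd hac hbd e e'
    have x1 := key a b c hab hbc hac e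
    have x2 := key d c b hcd.symm hbc.symm hbd.symm e'.symm
    exact hl.nodig b c x1 x2

end Pool.Agent.H78.Star
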