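import Pool.Agent.H78.Star.Line

/-!
# The digraph of the reduction: copies of the type digraph with some heads exchanged

An arc is a tuple `(x, t, i, j, l)` with `i, j, l < k` distinct: the arc of the copy `(x, t)` from
`(i, j)` to `(j, l)`. The map `sw` exchanges a few arcs between different copies.
-/

set_option autoImplicit false

namespace Pool.Agent.H78.Star

open Finset

/-- Names of arcs. -/
abbrev Tup := ℕ × ℕ × ℕ × ℕ × ℕ

/-- The arcs. -/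
def Valid (m N k : ℕ) (q : Tup) : Prop :=
  q.1 ≤ m ∧ q.2.1 < N ∧ q.2.2.1 < k ∧ q.2.2.2.1 < k ∧ q.2.2.2.2 < k ∧
    q.2.2.1 ≠ q.2.2.2.1 ∧ q.2.2.2.1 ≠ q.2.2.2.2 ∧ q.2.2.1 ≠ q.2.2.2.2

instance (m N k : ℕ) : DecidablePred (Valid m N k) := fun q => by
  unfold Valid
  infer_instance

/-- The exchange of arcs. -/
def sw (m N : ℕ) (ea eb : ℕ → ℕ) (q : Tup) : Tup :=
  if q.1 < m ∧ q.2.1 + 1 < N ∧ q.2.2.1 = 1 ∧ q.2.2.2.1 = 0 ∧ q.2.2.2.2 = 2 then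
    (q.1, q.2.1 + 1, 2, 0, 3)
  else if q.1 < m ∧ 0 < q.2.1 ∧ q.2.2.1 = 2 ∧ q.2.2.2.1 = 0 ∧ q.2.2.2.2 = 3 then
    (q.1, q.2.1 - 1, 1, 0, 2)
  else if q.1 < m ∧ q.2.2.1 = 3 ∧ q.2.2.2.1 = 0 ∧ q.2.2.2.2 = 1 ∧ q.1 = ea q.2.1 then
    (m, q.2.1, 2, 0, 3)
  else if q.1 < m ∧ q.2.2.1 = 3 ∧ q.2.2.2.1 = 0 ∧ q.2.2.2.2 = 1 ∧ q.1 = eb q.2.1 then
    (m, q.2.1, 3, 1, 2)
  else if q.1 = m ∧ q.2.2.1 = 2 ∧ q.2.2.2.1 = 0 ∧ q.2.2.2.2 = 3 then
    (ea q.2.1, q.2.1, 3, 0, 1)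
  else if q.1 = m ∧ q.2.2.1 = 3 ∧ q.2.2.2.1 = 1 ∧ q.2.2.2.2 = 2 then
    (eb q.2.1, q.2.1, 3, 0, 1)
  else q

/-- The tail of an arc. -/
def tl (q : Tup) : ℕ × ℕ × ℕ × ℕ := (q.1, q.2.1, q.2.2.1, q.2.2.2.1)

/-- The head of an arc before the exchange. -/
def h0 (q : Tup) : ℕ × ℕ × ℕ × ℕ := (q.1, q.2.1, q.2.2.2.1, q.2.2.2.2)

/-- The head of an arc. -/
def hd (m N : ℕ) (ea eb : ℕ → ℕ) (q : Tup) : ℕ × ℕ × ℕ × ℕ := h0 (sw m N ea eb q)

variable {m N k : ℕ} {ea eb : ℕ → ℕ}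

theorem sw_valid (hk : 5 ≤ k) (ha : ∀ t < N, ea t < m) (hb : ∀ t < N, eb t < m) {q : Tup}
    (h : Valid m N k q) : Valid m N k (sw m N ea eb q) := by
  obtain ⟨x, t, i, j, l⟩ := q
  simp only [Valid] at h
  have h1 := ha t h.2.1
  have h2 := hb t h.2.1
  unfold sw
  dsimp only
  split_ifs <;> simp only [Valid] <;> omega

theorem sw_sw (ha : ∀ t < N, ea t < m) (hb : ∀ t < N, eb t < m) (hab : ∀ t < N, ea t ≠ eb t)
    {q : Tup} (h : Valid m N k q) : sw m N ea eb (sw m N ea eb q) = q := by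
  obtain ⟨x, t, i, j, l⟩ := q
  simp only [Valid] at h
  have h1 := ha t h.2.1
  have h2 := hb t h.2.1
  have h3 := hab t h.2.1
  by_cases c1 : x < m ∧ t + 1 < N ∧ i = 1 ∧ j = 0 ∧ l = 2
  · obtain ⟨a1, a2, rfl, rfl, rfl⟩ := c1
    simp [sw, a1, a2]
  by_cases c2 : x < m ∧ 0 < t ∧ i = 2 ∧ j = 0 ∧ l = 3
  · obtain ⟨a1, a2, rfl, rfl, rfl⟩ := c2
    have a3 : t - 1 + 1 = t := by omega
    simp [sw, a1, a2, a3, h.2.1]
  by_cases c3 : x < m ∧ i = 3 ∧ j = 0 ∧ l = 1 ∧ x = ea t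
  · obtain ⟨a1, rfl, rfl, rfl, rfl⟩ := c3
    simp [sw, a1]
  by_cases c4 : x < m ∧ i = 3 ∧ j = 0 ∧ l = 1 ∧ x = eb t
  · obtain ⟨a1, rfl, rfl, rfl, rfl⟩ := c4
    simp [sw, a1, h3.symm]
  by_cases c5 : x = m ∧ i = 2 ∧ j = 0 ∧ l = 3
  · obtain ⟨rfl, rfl, rfl, rfl⟩ := c5
    simp [sw, h1]
  by_cases c6 : x = m ∧ i = 3 ∧ j = 1 ∧ l = 2
  · obtain ⟨rfl, rfl, rfl, rfl⟩ := c6
    simp [sw, h2, h3.symm]
  have e : sw m N ea eb (x, t, i, j, l) = (x, t, i, j, l) := by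
    unfold sw
    dsimp only
    rw [if_neg c1, if_neg c2, if_neg c3, if_neg c4, if_neg c5, if_neg c6]
  rw [e, e]

theorem sw_cases (ha : ∀ t < N, ea t < m) (hb : ∀ t < N, eb t < m) {q : Tup}
    (h : Valid m N k q) :
    sw m N ea eb q = q ∨
    (∃ x t, x < m ∧ q = (x, t, 1, 0, 2) ∧ sw m N ea eb q = (x, t + 1, 2, 0, 3)) ∨
    (∃ x t, x < m ∧ q = (x, t + 1, 2, 0, 3) ∧ sw m N ea eb q = (x, t, 1, 0, 2)) ∨
    (∃ t < N, q = (ea t, t, 3, 0, 1) ∧ sw m N ea eb q = (m, t, 2, 0, 3)) ∨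
    (∃ t < N, q = (m, t, 2, 0, 3) ∧ sw m N ea eb q = (ea t, t, 3, 0, 1)) ∨
    (∃ t < N, q = (eb t, t, 3, 0, 1) ∧ sw m N ea eb q = (m, t, 3, 1, 2)) ∨
    (∃ t < N, q = (m, t, 3, 1, 2) ∧ sw m N ea eb q = (eb t, t, 3, 0, 1)) := by
  obtain ⟨x, t, i, j, l⟩ := q
  have ht : t < N := h.2.1
  by_cases c1 : x < m ∧ t + 1 < N ∧ i = 1 ∧ j = 0 ∧ l = 2
  · obtain ⟨a1, a2, rfl, rfl, rfl⟩ := c1
    exact Or.inr (Or.inl ⟨x, t, a1, rfl, by simp [sw, a1, a2]⟩)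
  by_cases c2 : x < m ∧ 0 < t ∧ i = 2 ∧ j = 0 ∧ l = 3
  · obtain ⟨a1, a2, rfl, rfl, rfl⟩ := c2
    obtain ⟨s, rfl⟩ : ∃ s, t = s + 1 := ⟨t - 1, by omega⟩
    exact Or.inr (Or.inr (Or.inl ⟨x, s, a1, rfl, by simp [sw, a1]⟩))
  by_cases c3 : x < m ∧ i = 3 ∧ j = 0 ∧ l = 1 ∧ x = ea t
  · obtain ⟨a1, rfl, rfl, rfl, rfl⟩ := c3
    exact Or.inr (Or.inr (Or.inr (Or.inl ⟨t, ht, rfl, by simp [sw, a1]⟩)))
  by_cases c4 : x < m ∧ i = 3 ∧ j = 0 ∧ l = 1 ∧ x = eb t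
  · obtain ⟨a1, rfl, rfl, rfl, e⟩ := c4
    have c3' : ¬ x = ea t := fun hh => c3 ⟨a1, rfl, rfl, rfl, hh⟩
    subst e
    exact Or.inr (Or.inr (Or.inr (Or.inr (Or.inr (Or.inl ⟨t, ht, rfl, by simp [sw, a1, c3']⟩)))))
  by_cases c5 : x = m ∧ i = 2 ∧ j = 0 ∧ l = 3
  · obtain ⟨rfl, rfl, rfl, rfl⟩ := c5
    exact Or.inr (Or.inr (Or.inr (Or.inr (Or.inl ⟨t, ht, rfl, by simp [sw]⟩))))
  by_cases c6 : x = m ∧ i = 3 ∧ j = 1 ∧ l = 2
  · obtain ⟨rfl, rfl, rfl, rfl⟩ := c6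
    exact Or.inr (Or.inr (Or.inr (Or.inr (Or.inr (Or.inr ⟨t, ht, rfl, by simp [sw]⟩)))))
  left
  unfold sw
  dsimp only
  rw [if_neg c1, if_neg c2, if_neg c3, if_neg c4, if_neg c5, if_neg c6]

theorem nodig (ha : ∀ t < N, ea t < m) (hb : ∀ t < N, eb t < m)
    {q r : Tup} (hq : Valid m N k q) (hr : Valid m N k r) (h : hd m N ea eb q = tl r) :
    hd m N ea eb r ≠ tl q := by
  intro h'
  unfold hd at h h'
  rcases sw_cases ha hb hq with e | ⟨x, t, hx, e0, e⟩ | ⟨x, t, hx, e0, e⟩ | ⟨t, ht, e0, e⟩ |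
    ⟨t, ht, e0, e⟩ | ⟨t, ht, e0, e⟩ | ⟨t, ht, e0, e⟩ <;> rw [e] at h <;>
  rcases sw_cases ha hb hr with e' | ⟨x', t', hx', e0', e'⟩ | ⟨x', t', hx', e0', e'⟩ |
    ⟨t', ht', e0', e'⟩ | ⟨t', ht', e0', e'⟩ | ⟨t', ht', e0', e'⟩ | ⟨t', ht', e0', e'⟩ <;>
    rw [e'] at h' <;> clear e e'
  case inl.inl =>
    obtain ⟨x, t, i, j, l⟩ := q
    obtain ⟨x', t', i', j', l'⟩ := r
    simp only [Valid, h0, tl, Prod.mk.injEq] at hq hr h h'
    omega
  all_goals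
    obtain ⟨x1, t1, i1, j1, l1⟩ := q
    obtain ⟨x2, t2, i2, j2, l2⟩ := r
    simp only [h0, tl, Prod.mk.injEq] at *
    first
      | omega
      | (have hh1 := ha _ ht
         have hh2 := hb _ ht
         omega)
      | (have hh1 := ha _ ht'
         have hh2 := hb _ ht'
         omega)

/-- The finite set of arcs. -/
def arcs (m N k : ℕ) : Finset Tup :=
  (range (m + 1) ×ˢ range N ×ˢ range k ×ˢ range k ×ˢ range k).filter (Valid m N k)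

theorem mem_arcs {q : Tup} : q ∈ arcs m N k ↔ Valid m N k q := by
  obtain ⟨x, t, i, j, l⟩ := q
  simp only [arcs, mem_filter, mem_product, mem_range, Valid]
  omega

theorem card_out {x t i j : ℕ} (hx : x ≤ m) (ht : t < N) (hi : i < k) (hj : j < k) (hij : i ≠ j) :
    ((arcs m N k).filter fun q => tl q = (x, t, i, j)).card = k - 2 := by
  have h : (((range k).erase i).erase j).card = k - 2 := by
    rw [card_erase_of_mem, card_erase_of_mem, card_range]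
    · omega
    · exact mem_range.2 hi
    · exact mem_erase.2 ⟨hij.symm, mem_range.2 hj⟩
  rw [← h]
  symm
  refine card_bij (fun l _ => ((x, t, i, j, l) : Tup)) ?_ ?_ ?_
  · intro l hl
    simp only [mem_erase, mem_range] at hl
    rw [mem_filter, mem_arcs]
    simp only [Valid, tl, and_true]
    omega
  · intro l _ l' _ e
    simpa using e
  · rintro ⟨x', t', i', j', l'⟩ hq
    rw [mem_filter, mem_arcs] at hq
    simp only [Valid, tl, Prod.mk.injEq] at hq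
    obtain ⟨h1, rfl, rfl, rfl, rfl⟩ := hq
    refine ⟨l', ?_, rfl⟩
    simp only [mem_erase, mem_range]
    omega

theorem card_in0 {x t i j : ℕ} (hx : x ≤ m) (ht : t < N) (hi : i < k) (hj : j < k) (hij : i ≠ j) :
    ((arcs m N k).filter fun q => h0 q = (x, t, i, j)).card = k - 2 := by
  have h : (((range k).erase i).erase j).card = k - 2 := by
    rw [card_erase_of_mem, card_erase_of_mem, card_range]
    · omega
    · exact mem_range.2 hi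
    · exact mem_erase.2 ⟨hij.symm, mem_range.2 hj⟩
  rw [← h]
  symm
  refine card_bij (fun l _ => ((x, t, l, i, j) : Tup)) ?_ ?_ ?_
  · intro l hl
    simp only [mem_erase, mem_range] at hl
    rw [mem_filter, mem_arcs]
    simp only [Valid, h0, and_true]
    omega
  · intro l _ l' _ e
    simpa using e
  · rintro ⟨x', t', i', j', l'⟩ hq
    rw [mem_filter, mem_arcs] at hq
    simp only [Valid, h0, Prod.mk.injEq] at hq
    obtain ⟨h1, rfl, rfl, rfl, rfl⟩ := hq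
    refine ⟨i', ?_, rfl⟩
    simp only [mem_erase, mem_range]
    omega

theorem card_in (hk : 5 ≤ k) (ha : ∀ t < N, ea t < m) (hb : ∀ t < N, eb t < m)
    (hab : ∀ t < N, ea t ≠ eb t) {x t i j : ℕ} (hx : x ≤ m) (ht : t < N) (hi : i < k)
    (hj : j < k) (hij : i ≠ j) :
    ((arcs m N k).filter fun q => hd m N ea eb q = (x, t, i, j)).card = k - 2 := by
  rw [← card_in0 hx ht hi hj hij]
  refine card_bij' (fun q _ => sw m N ea eb q) (fun q _ => sw m N ea eb q) ?_ ?_ ?_ ?_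
  · intro q hq
    rw [mem_filter, mem_arcs] at hq ⊢
    exact ⟨sw_valid hk ha hb hq.1, hq.2⟩
  · intro q hq
    rw [mem_filter, mem_arcs] at hq ⊢
    refine ⟨sw_valid hk ha hb hq.1, ?_⟩
    rw [hd, sw_sw ha hb hab hq.1]
    exact hq.2
  · intro q hq
    rw [mem_filter, mem_arcs] at hq
    exact sw_sw ha hb hab hq.1
  · intro q hq
    rw [mem_filter, mem_arcs] at hq
    exact sw_sw ha hb hab hq.1

/-- The vertices of the graph of the reduction. -/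
abbrev Arc (m N k : ℕ) := {q : Tup // q ∈ arcs m N k}

/-- The graph of the reduction. -/
def graph (m N k : ℕ) (ea eb : ℕ → ℕ) : SimpleGraph (Arc m N k) where
  Adj a b := a ≠ b ∧ (hd m N ea eb a.1 = tl b.1 ∨ hd m N ea eb b.1 = tl a.1)
  symm := ⟨fun _ _ h => ⟨h.1.symm, h.2.symm⟩⟩
  loopless := ⟨fun _ h => h.1 rfl⟩

theorem card_fiber {P : Tup → Prop} [DecidablePred P] {n : ℕ}
    (h : ((arcs m N k).filter P).card = n) :
    ∃ S : Finset (Arc m N k), S.card = n ∧ ∀ b, b ∈ S ↔ P b.1 := by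
  refine ⟨(univ : Finset (Arc m N k)).filter fun b => P b.1, ?_, fun b => by simp⟩
  rw [← h]
  refine card_bij (fun b _ => b.1) ?_ ?_ ?_
  · intro b hb
    simp only [mem_filter, mem_univ, true_and] at hb
    exact mem_filter.2 ⟨b.2, hb⟩
  · intro b _ c _ e
    exact Subtype.ext e
  · intro q hq
    rw [mem_filter] at hq
    exact ⟨⟨q, hq.1⟩, by simpa using hq.2, rfl⟩

theorem isLine (hk : 5 ≤ k) (ha : ∀ t < N, ea t < m) (hb : ∀ t < N, eb t < m)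
    (hab : ∀ t < N, ea t ≠ eb t) :
    IsLine (graph m N k ea eb) (fun a => tl a.1) (fun a => hd m N ea eb a.1) (k - 2) where
  adj a b := by
    simp only [graph, and_iff_right_iff_imp]
    rintro h rfl
    have := nodig ha hb (mem_arcs.1 a.2) (mem_arcs.1 a.2) (h.elim id id)
    exact this (h.elim id id)
  nodig a b h := nodig ha hb (mem_arcs.1 a.2) (mem_arcs.1 b.2) h
  tt a := by
    obtain ⟨h1, h2, h3, h4, h5, h6, h7, h8⟩ := mem_arcs.1 a.2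
    exact card_fiber (P := fun q => tl q = tl a.1) (card_out h1 h2 h3 h4 h6)
  th a := by
    obtain ⟨h1, h2, h3, h4, h5, h6, h7, h8⟩ := sw_valid hk ha hb (mem_arcs.1 a.2)
    exact card_fiber (P := fun q => tl q = hd m N ea eb a.1) (card_out h1 h2 h4 h5 h7)
  ht a := by
    obtain ⟨h1, h2, h3, h4, h5, h6, h7, h8⟩ := mem_arcs.1 a.2
    exact card_fiber (P := fun q => hd m N ea eb q = tl a.1)
      (card_in hk ha hb hab h1 h2 h3 h4 h6)
  hh a := by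
    obtain ⟨h1, h2, h3, h4, h5, h6, h7, h8⟩ := sw_valid hk ha hb (mem_arcs.1 a.2)
    exact card_fiber (P := fun q => hd m N ea eb q = hd m N ea eb a.1)
      (card_in hk ha hb hab h1 h2 h4 h5 h7)

end Pool.Agent.H78.Star
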