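import Pool.Agent.H78.Star.Net

/-!
# Soundness: a star colouring of the graph of the reduction gives a proper colouring
-/

set_option autoImplicit false

namespace Pool.Agent.H78.Star

open Finset

section

variable {m N p : ℕ} {ea eb : ℕ → ℕ} (f : Arc m N (p + 2) → Fin (p + 2))

/-- The colour of an arc given by its name. -/
def col (q : Tup) : Fin (p + 2) := if h : q ∈ arcs m N (p + 2) then f ⟨q, h⟩ else 0

theorem col_eq {q : Tup} (h : Valid m N (p + 2) q) : col f q = f ⟨q, mem_arcs.2 h⟩ := by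
  unfold col
  rw [dif_pos (mem_arcs.2 h)]

/-- `Plus` in terms of names. -/
def Pl (m N p : ℕ) (ea eb : ℕ → ℕ) (f : Arc m N (p + 2) → Fin (p + 2)) (q : Tup) : Prop :=
  ∃ h : q ∈ arcs m N (p + 2), Plus (graph m N (p + 2) ea eb) f (fun a => tl a.1)
    (fun a => hd m N ea eb a.1) ⟨q, h⟩

/-- The reverse of `Plus` in terms of names. -/
def Mi (m N p : ℕ) (ea eb : ℕ → ℕ) (f : Arc m N (p + 2) → Fin (p + 2)) (q : Tup) : Prop :=
  ∃ h : q ∈ arcs m N (p + 2), Plus (graph m N (p + 2) ea eb) f (fun a => hd m N ea eb a.1)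
    (fun a => tl a.1) ⟨q, h⟩

variable {f}

theorem pl_or (hp : 3 ≤ p) (hG : Good (graph m N (p + 2) ea eb) f)
    (hl : IsLine (graph m N (p + 2) ea eb) (fun a => tl a.1) (fun a => hd m N ea eb a.1) p)
    {q : Tup} (h : Valid m N (p + 2) q) : Pl m N p ea eb f q ∨ Mi m N p ea eb f q := by
  rcases plus_or hp hG hl ⟨q, mem_arcs.2 h⟩ with h' | h'
  · exact Or.inl ⟨_, h'⟩
  · exact Or.inr ⟨_, h'⟩

theorem pl_adj (hp : 3 ≤ p) (hG : Good (graph m N (p + 2) ea eb) f)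
    (hl : IsLine (graph m N (p + 2) ea eb) (fun a => tl a.1) (fun a => hd m N ea eb a.1) p)
    {q r : Tup} (hq : Valid m N (p + 2) q) (hr : Valid m N (p + 2) r)
    (e : hd m N ea eb q = tl r) : Pl m N p ea eb f q ↔ Pl m N p ea eb f r := by
  constructor
  · rintro ⟨h, h'⟩
    exact ⟨mem_arcs.2 hr, h'.fwd hp hG hl e⟩
  · rintro ⟨h, h'⟩
    exact ⟨mem_arcs.2 hq, h'.bwd hp hG hl e⟩

theorem pl_same (hp : 3 ≤ p) (hG : Good (graph m N (p + 2) ea eb) f)
    (hl : IsLine (graph m N (p + 2) ea eb) (fun a => tl a.1) (fun a => hd m N ea eb a.1) p)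
    {q q' r r' : Tup} (h : Pl m N p ea eb f q) (hq' : Valid m N (p + 2) q')
    (hr : Valid m N (p + 2) r) (hr' : Valid m N (p + 2) r') (e : tl q = tl q')
    (e1 : tl r = hd m N ea eb q) (e2 : tl r' = hd m N ea eb q') : col f r = col f r' := by
  obtain ⟨h0, h1⟩ := h
  rw [col_eq f hr, col_eq f hr']
  exact h1.same hp hG hl (a' := ⟨q', mem_arcs.2 hq'⟩) e e1 e2

theorem mi_same (hp : 3 ≤ p) (hG : Good (graph m N (p + 2) ea eb) f)
    (hl : IsLine (graph m N (p + 2) ea eb) (fun a => tl a.1) (fun a => hd m N ea eb a.1) p)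
    {q q' r r' : Tup} (h : Mi m N p ea eb f q) (hq' : Valid m N (p + 2) q')
    (hr : Valid m N (p + 2) r) (hr' : Valid m N (p + 2) r')
    (e : hd m N ea eb q = hd m N ea eb q')
    (e1 : hd m N ea eb r = tl q) (e2 : hd m N ea eb r' = tl q') : col f r = col f r' := by
  obtain ⟨h0, h1⟩ := h
  rw [col_eq f hr, col_eq f hr']
  exact h1.same hp hG hl.symm (a' := ⟨q', mem_arcs.2 hq'⟩) e e1 e2

theorem col_ne (hG : Good (graph m N (p + 2) ea eb) f)
    (hl : IsLine (graph m N (p + 2) ea eb) (fun a => tl a.1) (fun a => hd m N ea eb a.1) p)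
    {q r : Tup} (hq : Valid m N (p + 2) q) (hr : Valid m N (p + 2) r)
    (e : hd m N ea eb q = tl r) : col f q ≠ col f r := by
  rw [col_eq f hq, col_eq f hr]
  exact hG.proper ((hl.adj _ _).2 (Or.inl e))

end

theorem hd_id {m N : ℕ} {ea eb : ℕ → ℕ} (x t i j l : ℕ) (h1 : ¬ (i = 1 ∧ j = 0 ∧ l = 2))
    (h2 : ¬ (i = 2 ∧ j = 0 ∧ l = 3)) (h3 : ¬ (i = 3 ∧ j = 0 ∧ l = 1))
    (h4 : ¬ (i = 3 ∧ j = 1 ∧ l = 2)) : hd m N ea eb (x, t, i, j, l) = (x, t, j, l) := by
  unfold hd sw h0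
  dsimp only
  rw [if_neg (by tauto), if_neg (by tauto), if_neg (by tauto), if_neg (by tauto),
    if_neg (by tauto), if_neg (by tauto)]

theorem sound {m N p : ℕ} {ea eb : ℕ → ℕ} (hp : 3 ≤ p) (ha : ∀ t < N, ea t < m)
    (hb : ∀ t < N, eb t < m) (hab : ∀ t < N, ea t ≠ eb t)
    (f : Arc m N (p + 2) → Fin (p + 2))
    (hf : IsStarColouring (graph m N (p + 2) ea eb) f) :
    ∃ c : ℕ → Fin (p + 2), ∀ t < N, c (ea t) ≠ c (eb t) := by
  classical
  have hl : IsLine (graph m N (p + 2) ea eb) (fun a => tl a.1) (fun a => hd m N ea eb a.1) p := by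
    have := isLine (k := p + 2) (by omega) ha hb hab
    rwa [Nat.add_sub_cancel] at this
  have hG : Good (graph m N (p + 2) ea eb) f := good (by omega) hf fun v => hl.card_adj v
  have V : ∀ x t i j l : ℕ, x ≤ m → t < N → (i < 5 ∧ j < 5 ∧ l < 5 ∧ i ≠ j ∧ j ≠ l ∧ i ≠ l) →
      Valid m N (p + 2) (x, t, i, j, l) := by
    intro x t i j l hx ht h
    simp only [Valid]
    omega
  have H : ∀ x t i j l : ℕ, ¬ ((i = 1 ∧ j = 0 ∧ l = 2) ∨ (i = 2 ∧ j = 0 ∧ l = 3) ∨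
      (i = 3 ∧ j = 0 ∧ l = 1) ∨ (i = 3 ∧ j = 1 ∧ l = 2)) →
      hd m N ea eb (x, t, i, j, l) = (x, t, j, l) := by
    intro x t i j l h
    push Not at h
    exact hd_id x t i j l (by tauto) (by tauto) (by tauto) (by tauto)
  have hS1 : ∀ x t, x < m → t + 1 < N → hd m N ea eb (x, t, 1, 0, 2) = (x, t + 1, 0, 3) := by
    intro x t hx ht
    simp [hd, h0, sw, hx, ht]
  have hS2 : ∀ t < N, hd m N ea eb (ea t, t, 3, 0, 1) = (m, t, 0, 3) := by
    intro t ht
    simp [hd, h0, sw, ha t ht]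
  have hS3 : ∀ t < N, hd m N ea eb (eb t, t, 3, 0, 1) = (m, t, 1, 2) := by
    intro t ht
    simp [hd, h0, sw, hb t ht, (hab t ht).symm]
  -- the sign of a copy
  have sg : ∀ x t, x ≤ m → t < N → ∀ l, l < 5 → l ≠ 1 → l ≠ 0 →
      (Pl m N p ea eb f (x, t, 1, 0, l) ↔ Pl m N p ea eb f (x, t, 0, 4, 1)) := by
    intro x t hx ht l hl5 hl1 hl0
    have e1 : Pl m N p ea eb f (x, t, 4, 1, 0) ↔ Pl m N p ea eb f (x, t, 1, 0, l) :=
      pl_adj hp hG hl (V _ _ _ _ _ hx ht (by omega)) (V _ _ _ _ _ hx ht (by omega))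
        (H x t 4 1 0 (by decide))
    have e2 : Pl m N p ea eb f (x, t, 0, 4, 1) ↔ Pl m N p ea eb f (x, t, 4, 1, 0) :=
      pl_adj hp hG hl (V _ _ _ _ _ hx ht (by omega)) (V _ _ _ _ _ hx ht (by omega))
        (H x t 0 4 1 (by decide))
    rw [e2, e1]
  have sg3 : ∀ x t, x ≤ m → t < N → ∀ l, l < 5 → l ≠ 3 → l ≠ 0 →
      (Pl m N p ea eb f (x, t, 3, 0, l) ↔ Pl m N p ea eb f (x, t, 0, 4, 1)) := by
    intro x t hx ht l hl5 hl1 hl0
    have e1 : Pl m N p ea eb f (x, t, 4, 3, 0) ↔ Pl m N p ea eb f (x, t, 3, 0, l) :=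
      pl_adj hp hG hl (V _ _ _ _ _ hx ht (by omega)) (V _ _ _ _ _ hx ht (by omega))
        (H x t 4 3 0 (by decide))
    have e2 : Pl m N p ea eb f (x, t, 1, 4, 3) ↔ Pl m N p ea eb f (x, t, 4, 3, 0) :=
      pl_adj hp hG hl (V _ _ _ _ _ hx ht (by omega)) (V _ _ _ _ _ hx ht (by omega))
        (H x t 1 4 3 (by decide))
    have e3 : Pl m N p ea eb f (x, t, 0, 1, 4) ↔ Pl m N p ea eb f (x, t, 1, 4, 3) :=
      pl_adj hp hG hl (V _ _ _ _ _ hx ht (by omega)) (V _ _ _ _ _ hx ht (by omega))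
        (H x t 0 1 4 (by decide))
    have e4 : Pl m N p ea eb f (x, t, 4, 0, 1) ↔ Pl m N p ea eb f (x, t, 0, 1, 4) :=
      pl_adj hp hG hl (V _ _ _ _ _ hx ht (by omega)) (V _ _ _ _ _ hx ht (by omega))
        (H x t 4 0 1 (by decide))
    have e5 : Pl m N p ea eb f (x, t, 2, 4, 0) ↔ Pl m N p ea eb f (x, t, 4, 0, 1) :=
      pl_adj hp hG hl (V _ _ _ _ _ hx ht (by omega)) (V _ _ _ _ _ hx ht (by omega))
        (H x t 2 4 0 (by decide))
    have e6 : Pl m N p ea eb f (x, t, 1, 2, 4) ↔ Pl m N p ea eb f (x, t, 2, 4, 0) :=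
      pl_adj hp hG hl (V _ _ _ _ _ hx ht (by omega)) (V _ _ _ _ _ hx ht (by omega))
        (H x t 1 2 4 (by decide))
    have e7 : Pl m N p ea eb f (x, t, 4, 1, 2) ↔ Pl m N p ea eb f (x, t, 1, 2, 4) :=
      pl_adj hp hG hl (V _ _ _ _ _ hx ht (by omega)) (V _ _ _ _ _ hx ht (by omega))
        (H x t 4 1 2 (by decide))
    have e8 : Pl m N p ea eb f (x, t, 0, 4, 1) ↔ Pl m N p ea eb f (x, t, 4, 1, 2) :=
      pl_adj hp hG hl (V _ _ _ _ _ hx ht (by omega)) (V _ _ _ _ _ hx ht (by omega))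
        (H x t 0 4 1 (by decide))
    rw [e8, e7, e6, e5, e4, e3, e2, e1]
  have sgn1 : ∀ x t, x < m → t + 1 < N →
      (Pl m N p ea eb f (x, t, 0, 4, 1) ↔ Pl m N p ea eb f (x, t + 1, 0, 4, 1)) := by
    intro x t hx ht
    have e1 : Pl m N p ea eb f (x, t, 1, 0, 2) ↔ Pl m N p ea eb f (x, t + 1, 0, 3, 1) :=
      pl_adj hp hG hl (V _ _ _ _ _ hx.le (by omega) (by omega))
        (V _ _ _ _ _ hx.le ht (by omega)) (hS1 x t hx ht)
    have e2 : Pl m N p ea eb f (x, t + 1, 1, 0, 3) ↔ Pl m N p ea eb f (x, t + 1, 0, 3, 1) :=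
      pl_adj hp hG hl (V _ _ _ _ _ hx.le ht (by omega)) (V _ _ _ _ _ hx.le ht (by omega))
        (H x (t + 1) 1 0 3 (by decide))
    rw [← sg x t hx.le (by omega) 2 (by omega) (by omega) (by omega),
      ← sg x (t + 1) hx.le ht 3 (by omega) (by omega) (by omega), e1, e2]
  have sgn2 : ∀ t < N, (Pl m N p ea eb f (ea t, t, 0, 4, 1) ↔ Pl m N p ea eb f (m, t, 0, 4, 1)) := by
    intro t ht
    have hx := (ha t ht).le
    have e1 : Pl m N p ea eb f (ea t, t, 3, 0, 1) ↔ Pl m N p ea eb f (m, t, 0, 3, 1) :=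
      pl_adj hp hG hl (V _ _ _ _ _ hx ht (by omega)) (V _ _ _ _ _ le_rfl ht (by omega))
        (hS2 t ht)
    have e2 : Pl m N p ea eb f (m, t, 1, 0, 3) ↔ Pl m N p ea eb f (m, t, 0, 3, 1) :=
      pl_adj hp hG hl (V _ _ _ _ _ le_rfl ht (by omega)) (V _ _ _ _ _ le_rfl ht (by omega))
        (H m t 1 0 3 (by decide))
    rw [← sg3 (ea t) t hx ht 1 (by omega) (by omega) (by omega),
      ← sg m t le_rfl ht 3 (by omega) (by omega) (by omega), e1, e2]
  have sgn3 : ∀ t < N, (Pl m N p ea eb f (eb t, t, 0, 4, 1) ↔ Pl m N p ea eb f (m, t, 0, 4, 1)) := by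
    intro t ht
    have hx := (hb t ht).le
    have e1 : Pl m N p ea eb f (eb t, t, 3, 0, 1) ↔ Pl m N p ea eb f (m, t, 1, 2, 0) :=
      pl_adj hp hG hl (V _ _ _ _ _ hx ht (by omega)) (V _ _ _ _ _ le_rfl ht (by omega))
        (hS3 t ht)
    have e2 : Pl m N p ea eb f (m, t, 4, 1, 2) ↔ Pl m N p ea eb f (m, t, 1, 2, 0) :=
      pl_adj hp hG hl (V _ _ _ _ _ le_rfl ht (by omega)) (V _ _ _ _ _ le_rfl ht (by omega))
        (H m t 4 1 2 (by decide))
    have e3 : Pl m N p ea eb f (m, t, 0, 4, 1) ↔ Pl m N p ea eb f (m, t, 4, 1, 2) :=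
      pl_adj hp hG hl (V _ _ _ _ _ le_rfl ht (by omega)) (V _ _ _ _ _ le_rfl ht (by omega))
        (H m t 0 4 1 (by decide))
    rw [← sg3 (eb t) t hx ht 1 (by omega) (by omega) (by omega), e3, e1, e2]
  have mi : ∀ q, Valid m N (p + 2) q → ¬ Pl m N p ea eb f q → Mi m N p ea eb f q := fun q hq h =>
    (pl_or hp hG hl hq).resolve_left h
  -- the colours along a chain
  have chP : ∀ x, x < m → ∀ t, t < N → Pl m N p ea eb f (x, 0, 0, 4, 1) →
      Pl m N p ea eb f (x, t, 0, 4, 1) ∧ col f (x, t, 0, 4, 1) = col f (x, 0, 0, 4, 1) := by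
    intro x hx t
    induction t with
    | zero => exact fun _ h => ⟨h, rfl⟩
    | succ t ih =>
      intro ht h
      obtain ⟨h1, h2⟩ := ih (by omega) h
      have h3 := (sgn1 x t hx ht).1 h1
      refine ⟨h3, ?_⟩
      have e1 : col f (x, t + 1, 0, 3, 1) = col f (x, t, 0, 4, 1) :=
        pl_same hp hG hl (q := (x, t, 1, 0, 2)) (q' := (x, t, 1, 0, 4))
          ((sg x t hx.le (by omega) 2 (by omega) (by omega) (by omega)).2 h1)
          (V _ _ _ _ _ hx.le (by omega) (by omega)) (V _ _ _ _ _ hx.le ht (by omega))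
          (V _ _ _ _ _ hx.le (by omega) (by omega)) rfl (hS1 x t hx ht).symm
          (H x t 1 0 4 (by decide)).symm
      have e2 : col f (x, t + 1, 0, 3, 1) = col f (x, t + 1, 0, 4, 1) :=
        pl_same hp hG hl (q := (x, t + 1, 1, 0, 3)) (q' := (x, t + 1, 1, 0, 4))
          ((sg x (t + 1) hx.le ht 3 (by omega) (by omega) (by omega)).2 h3)
          (V _ _ _ _ _ hx.le (by omega) (by omega)) (V _ _ _ _ _ hx.le ht (by omega))
          (V _ _ _ _ _ hx.le (by omega) (by omega)) rfl (H x (t + 1) 1 0 3 (by decide)).symm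
          (H x (t + 1) 1 0 4 (by decide)).symm
      rw [← e2, e1, h2]
  have notP : ∀ x, x < m → ∀ t, t < N → (Pl m N p ea eb f (x, t, 0, 4, 1) ↔
      Pl m N p ea eb f (x, 0, 0, 4, 1)) := by
    intro x hx t
    induction t with
    | zero => exact fun _ => Iff.rfl
    | succ t ih => exact fun ht => (sgn1 x t hx ht).symm.trans (ih (by omega))
  -- in a copy with the negative sign all arcs used are negative
  have ng : ∀ x t, x ≤ m → t < N → ¬ Pl m N p ea eb f (x, t, 0, 4, 1) →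
      ∀ i j l, (i = 1 ∧ j = 0 ∧ l < 5 ∧ l ≠ 0 ∧ l ≠ 1) ∨ (i = 3 ∧ j = 0 ∧ l < 5 ∧ l ≠ 0 ∧ l ≠ 3) →
        Mi m N p ea eb f (x, t, i, j, l) := by
    rintro x t hx ht h i j l (⟨rfl, rfl, h1, h2, h3⟩ | ⟨rfl, rfl, h1, h2, h3⟩)
    · exact mi _ (V _ _ _ _ _ hx ht (by omega)) fun h' => h ((sg x t hx ht l h1 h3 h2).1 h')
    · exact mi _ (V _ _ _ _ _ hx ht (by omega)) fun h' => h ((sg3 x t hx ht l h1 h3 h2).1 h')
  have chM : ∀ x, x < m → ∀ t, t < N → ¬ Pl m N p ea eb f (x, 0, 0, 4, 1) →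
      col f (x, t, 1, 4, 0) = col f (x, 0, 1, 4, 0) := by
    intro x hx t
    induction t with
    | zero => exact fun _ _ => rfl
    | succ t ih =>
      intro ht h
      have h1 : ¬ Pl m N p ea eb f (x, t, 0, 4, 1) := fun h' => h ((notP x hx t (by omega)).1 h')
      rw [← ih (by omega) h]
      have e1 : col f (x, t, 4, 1, 0) = col f (x, t, 1, 4, 0) :=
        mi_same hp hG hl (q := (x, t, 1, 0, 3)) (q' := (x, t, 4, 0, 3))
          (ng x t hx.le (by omega) h1 _ _ _ (Or.inl (by omega)))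
          (V _ _ _ _ _ hx.le (by omega) (by omega)) (V _ _ _ _ _ hx.le (by omega) (by omega))
          (V _ _ _ _ _ hx.le (by omega) (by omega))
          ((H x t 1 0 3 (by decide)).trans (H x t 4 0 3 (by decide)).symm)
          (H x t 4 1 0 (by decide)) (H x t 1 4 0 (by decide))
      have e2 : col f (x, t, 4, 1, 0) = col f (x, t + 1, 1, 4, 0) :=
        mi_same hp hG hl (q := (x, t, 1, 0, 2)) (q' := (x, t + 1, 4, 0, 3))
          (ng x t hx.le (by omega) h1 _ _ _ (Or.inl (by omega)))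
          (V _ _ _ _ _ hx.le ht (by omega)) (V _ _ _ _ _ hx.le (by omega) (by omega))
          (V _ _ _ _ _ hx.le ht (by omega))
          ((hS1 x t hx ht).trans (H x (t + 1) 4 0 3 (by decide)).symm)
          (H x t 4 1 0 (by decide)) (H x (t + 1) 1 4 0 (by decide))
      rw [← e1, e2]
  refine ⟨fun x => if Pl m N p ea eb f (x, 0, 0, 4, 1) then col f (x, 0, 0, 4, 1)
    else col f (x, 0, 1, 4, 0), fun t ht => ?_⟩
  dsimp only
  have hat := ha t ht
  have hbt := hb t ht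
  have s1 : Pl m N p ea eb f (ea t, 0, 0, 4, 1) ↔ Pl m N p ea eb f (m, t, 0, 4, 1) :=
    (notP _ hat t ht).symm.trans (sgn2 t ht)
  have s2 : Pl m N p ea eb f (eb t, 0, 0, 4, 1) ↔ Pl m N p ea eb f (m, t, 0, 4, 1) :=
    (notP _ hbt t ht).symm.trans (sgn3 t ht)
  by_cases hs : Pl m N p ea eb f (m, t, 0, 4, 1)
  · rw [if_pos (s1.2 hs), if_pos (s2.2 hs)]
    obtain ⟨a1, a2⟩ := chP _ hat t ht (s1.2 hs)
    obtain ⟨b1, b2⟩ := chP _ hbt t ht (s2.2 hs)
    rw [← a2, ← b2]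
    have e1 : col f (m, t, 0, 3, 1) = col f (ea t, t, 0, 4, 1) :=
      pl_same hp hG hl (q := (ea t, t, 3, 0, 1)) (q' := (ea t, t, 3, 0, 4))
        ((sg3 _ t hat.le ht 1 (by omega) (by omega) (by omega)).2 a1)
        (V _ _ _ _ _ hat.le ht (by omega)) (V _ _ _ _ _ le_rfl ht (by omega))
        (V _ _ _ _ _ hat.le ht (by omega)) rfl (hS2 t ht).symm
        (H (ea t) t 3 0 4 (by decide)).symm
    have e2 : col f (m, t, 1, 2, 0) = col f (eb t, t, 0, 4, 1) :=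
      pl_same hp hG hl (q := (eb t, t, 3, 0, 1)) (q' := (eb t, t, 3, 0, 4))
        ((sg3 _ t hbt.le ht 1 (by omega) (by omega) (by omega)).2 b1)
        (V _ _ _ _ _ hbt.le ht (by omega)) (V _ _ _ _ _ le_rfl ht (by omega))
        (V _ _ _ _ _ hbt.le ht (by omega)) rfl (hS3 t ht).symm
        (H (eb t) t 3 0 4 (by decide)).symm
    have e3 : col f (m, t, 0, 3, 1) = col f (m, t, 0, 4, 1) :=
      pl_same hp hG hl (q := (m, t, 1, 0, 3)) (q' := (m, t, 1, 0, 4))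
        ((sg m t le_rfl ht 3 (by omega) (by omega) (by omega)).2 hs)
        (V _ _ _ _ _ le_rfl ht (by omega)) (V _ _ _ _ _ le_rfl ht (by omega))
        (V _ _ _ _ _ le_rfl ht (by omega)) rfl (H m t 1 0 3 (by decide)).symm
        (H m t 1 0 4 (by decide)).symm
    have h41 : Pl m N p ea eb f (m, t, 4, 1, 0) :=
      (pl_adj hp hG hl (V _ _ _ _ _ le_rfl ht (by omega)) (V _ _ _ _ _ le_rfl ht (by omega))
        (H m t 0 4 1 (by decide))).1 hs
    have e4 : col f (m, t, 1, 0, 4) = col f (m, t, 1, 2, 0) :=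
      pl_same hp hG hl (q := (m, t, 4, 1, 0)) (q' := (m, t, 4, 1, 2)) h41
        (V _ _ _ _ _ le_rfl ht (by omega)) (V _ _ _ _ _ le_rfl ht (by omega))
        (V _ _ _ _ _ le_rfl ht (by omega)) rfl (H m t 4 1 0 (by decide)).symm
        (H m t 4 1 2 (by decide)).symm
    have e5 : col f (m, t, 1, 0, 4) ≠ col f (m, t, 0, 4, 1) :=
      col_ne hG hl (V _ _ _ _ _ le_rfl ht (by omega)) (V _ _ _ _ _ le_rfl ht (by omega))
        (H m t 1 0 4 (by decide))
    rw [← e1, e3, ← e2, ← e4]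
    exact e5.symm
  · have hna : ¬ Pl m N p ea eb f (ea t, 0, 0, 4, 1) := fun h => hs (s1.1 h)
    have hnb : ¬ Pl m N p ea eb f (eb t, 0, 0, 4, 1) := fun h => hs (s2.1 h)
    have hna' : ¬ Pl m N p ea eb f (ea t, t, 0, 4, 1) := fun h => hna ((notP _ hat t ht).1 h)
    have hnb' : ¬ Pl m N p ea eb f (eb t, t, 0, 4, 1) := fun h => hnb ((notP _ hbt t ht).1 h)
    rw [if_neg hna, if_neg hnb, ← chM _ hat t ht hna, ← chM _ hbt t ht hnb]
    have e1 : col f (ea t, t, 4, 3, 0) = col f (m, t, 1, 4, 0) :=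
      mi_same hp hG hl (q := (ea t, t, 3, 0, 1)) (q' := (m, t, 4, 0, 3))
        (ng _ t hat.le ht hna' _ _ _ (Or.inr (by omega)))
        (V _ _ _ _ _ le_rfl ht (by omega)) (V _ _ _ _ _ hat.le ht (by omega))
        (V _ _ _ _ _ le_rfl ht (by omega))
        ((hS2 t ht).trans (H m t 4 0 3 (by decide)).symm)
        (H (ea t) t 4 3 0 (by decide)) (H m t 1 4 0 (by decide))
    have e2 : ∀ x, x ≤ m → ¬ Pl m N p ea eb f (x, t, 0, 4, 1) →
        col f (x, t, 4, 3, 0) = col f (x, t, 1, 4, 0) := by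
      intro x hx hn
      exact mi_same hp hG hl (q := (x, t, 3, 0, 2)) (q' := (x, t, 4, 0, 2))
        (ng _ t hx ht hn _ _ _ (Or.inr (by omega)))
        (V _ _ _ _ _ hx ht (by omega)) (V _ _ _ _ _ hx ht (by omega))
        (V _ _ _ _ _ hx ht (by omega))
        ((H x t 3 0 2 (by decide)).trans (H x t 4 0 2 (by decide)).symm)
        (H x t 4 3 0 (by decide)) (H x t 1 4 0 (by decide))
    have e3 : col f (eb t, t, 4, 3, 0) = col f (m, t, 0, 4, 1) :=
      mi_same hp hG hl (q := (eb t, t, 3, 0, 1)) (q' := (m, t, 4, 1, 2))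
        (ng _ t hbt.le ht hnb' _ _ _ (Or.inr (by omega)))
        (V _ _ _ _ _ le_rfl ht (by omega)) (V _ _ _ _ _ hbt.le ht (by omega))
        (V _ _ _ _ _ le_rfl ht (by omega))
        ((hS3 t ht).trans (H m t 4 1 2 (by decide)).symm)
        (H (eb t) t 4 3 0 (by decide)) (H m t 0 4 1 (by decide))
    have h41 : ¬ Pl m N p ea eb f (m, t, 4, 1, 3) := fun h => hs
      ((pl_adj hp hG hl (V _ _ _ _ _ le_rfl ht (by omega)) (V _ _ _ _ _ le_rfl ht (by omega))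
        (H m t 0 4 1 (by decide))).2 h)
    have e4 : col f (m, t, 0, 4, 1) = col f (m, t, 4, 0, 1) :=
      mi_same hp hG hl (q := (m, t, 4, 1, 3)) (q' := (m, t, 0, 1, 3))
        (mi _ (V _ _ _ _ _ le_rfl ht (by omega)) h41)
        (V _ _ _ _ _ le_rfl ht (by omega)) (V _ _ _ _ _ le_rfl ht (by omega))
        (V _ _ _ _ _ le_rfl ht (by omega))
        ((H m t 4 1 3 (by decide)).trans (H m t 0 1 3 (by decide)).symm)
        (H m t 0 4 1 (by decide)) (H m t 4 0 1 (by decide))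
    have e5 : col f (m, t, 1, 4, 0) ≠ col f (m, t, 4, 0, 1) :=
      col_ne hG hl (V _ _ _ _ _ le_rfl ht (by omega)) (V _ _ _ _ _ le_rfl ht (by omega))
        (H m t 1 4 0 (by decide))
    rw [← e2 _ hat.le hna', ← e2 _ hbt.le hnb', e1, e3, e4]
    exact e5

end Pool.Agent.H78.Star
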