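import Pool.Agent.H78.Star.Word
import Pool.Agent.H78.Star.Sound
import Pool.Agent.H78.Star.Complete
import Pool.Agent.H78.NP.Col

/-!
# The reduction from graph `k`-colouring to star `k`-colouring of `(2k - 4)`-regular graphs
-/

set_option autoImplicit false

namespace Pool.Agent.H78.Star

open Finset Pool.Agent.H79.Cx Pool.Agent.H78.NP

/-- The list of all pairs. -/
def prodL {α β : Type} (l : List α) (l' : List β) : List (α × β) :=
  l.flatMap fun a => l'.map fun b => (a, b)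

@[fun_prop]
theorem PT.prodL {γ α β : Type} [Enc γ] [Enc α] [Enc β] {f : γ → List α} {g : γ → List β}
    (hf : PT f) (hg : PT g) : PT (fun x => prodL (f x) (g x)) := by
  unfold Star.prodL
  fun_prop

theorem nodup_prodL {α β : Type} {l : List α} {l' : List β} (h : l.Nodup) (h' : l'.Nodup) :
    (prodL l l').Nodup := List.Nodup.product h h'

theorem mem_prodL {α β : Type} {l : List α} {l' : List β} {p : α × β} :
    p ∈ prodL l l' ↔ p.1 ∈ l ∧ p.2 ∈ l' := by
  unfold prodL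
  simp only [List.mem_flatMap, List.mem_map]
  constructor
  · rintro ⟨a, ha, b, hb, rfl⟩
    exact ⟨ha, hb⟩
  · rintro ⟨ha, hb⟩
    exact ⟨_, ha, _, hb, rfl⟩

/-- The ends of the edges. -/
def eaOf (I : ℕ × List (ℕ × ℕ)) (t : ℕ) : ℕ := (I.2.getD t (0, 0)).1
/-- The ends of the edges. -/
def ebOf (I : ℕ × List (ℕ × ℕ)) (t : ℕ) : ℕ := (I.2.getD t (0, 0)).2

/-- The names of the arcs. -/
def vs (k : ℕ) (I : ℕ × List (ℕ × ℕ)) : List Tup :=
  (prodL (List.range (I.1 + 1)) (prodL (List.range I.2.length)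
    (prodL (List.range k) (prodL (List.range k) (List.range k))))).filter fun q =>
      decide (¬ q.2.2.1 = q.2.2.2.1 ∧ ¬ q.2.2.2.1 = q.2.2.2.2 ∧ ¬ q.2.2.1 = q.2.2.2.2)

/-- The head of an arc. -/
def hdI (I : ℕ × List (ℕ × ℕ)) (q : Tup) : ℕ × ℕ × ℕ × ℕ :=
  hd I.1 I.2.length (eaOf I) (ebOf I) q

/-- Equality of nodes. -/
def eqT (a b : ℕ × ℕ × ℕ × ℕ) : Bool :=
  decide (a.1 = b.1 ∧ a.2.1 = b.2.1 ∧ a.2.2.1 = b.2.2.1 ∧ a.2.2.2 = b.2.2.2)

/-- Adjacency of arcs. -/
def adjB (I : ℕ × List (ℕ × ℕ)) (q r : Tup) : Bool :=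
  eqT (hdI I q) (tl r) || eqT (hdI I r) (tl q)

/-- A name. -/
def dTup : Tup := (0, 0, 0, 0, 0)

/-- The reduction. -/
def red (k : ℕ) (I : ℕ × List (ℕ × ℕ)) : List Bool :=
  (List.range (vs k I).length).flatMap fun a =>
    (List.range (vs k I).length).map fun b =>
      adjB I ((vs k I).getD a dTup) ((vs k I).getD b dTup)

@[fun_prop]
theorem PT.hdI {α : Type} [Enc α] {I : α → ℕ × List (ℕ × ℕ)} {q : α → Tup} (hI : PT I)
    (hq : PT q) : PT (fun x => hdI (I x) (q x)) := by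
  unfold Star.hdI hd h0 sw eaOf ebOf
  fun_prop

@[fun_prop]
theorem PT.eqT {α : Type} [Enc α] {a b : α → ℕ × ℕ × ℕ × ℕ} (ha : PT a)
    (hb : PT b) : PT (fun x => eqT (a x) (b x)) := by
  unfold Star.eqT
  fun_prop

@[fun_prop]
theorem PT.tl1 {α : Type} [Enc α] {q : α → Tup} (hq : PT q) : PT (fun x => tl (q x)) := by
  unfold tl
  fun_prop

@[fun_prop]
theorem PT.vs1 {α : Type} [Enc α] (k : ℕ) {I : α → ℕ × List (ℕ × ℕ)} (hI : PT I) :
    PT (fun x => vs k (I x)) := by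
  unfold vs
  fun_prop

@[fun_prop]
theorem PT.adjB {α : Type} [Enc α] {I : α → ℕ × List (ℕ × ℕ)} {q r : α → Tup} (hI : PT I)
    (hq : PT q) (hr : PT r) : PT (fun x => adjB (I x) (q x) (r x)) := by
  unfold Star.adjB
  fun_prop

theorem PT_red (k : ℕ) : PT (red k) := by
  unfold red
  fun_prop

/-! ### Transfer along a bijection -/

theorem star_of_equiv {V W : Type*} {k : ℕ} {G : SimpleGraph V} {H : SimpleGraph W} (e : W ≃ V)
    (h : ∀ a b, H.Adj a b ↔ G.Adj (e a) (e b)) {f : V → Fin k} (hf : IsStarColouring G f) :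
    IsStarColouring H (fun w => f (e w)) := by
  refine ⟨fun u v huv => hf.1 _ _ ((h u v).1 huv), ?_⟩
  intro a b c d hab hbc hcd hac had hbd
  exact hf.2 _ _ _ _ ((h a b).1 hab) ((h b c).1 hbc) ((h c d).1 hcd)
    (fun x => hac (e.injective x)) (fun x => had (e.injective x)) (fun x => hbd (e.injective x))

theorem ncard_of_equiv {V W : Type*} {G : SimpleGraph V} {H : SimpleGraph W} (e : W ≃ V)
    (h : ∀ a b, H.Adj a b ↔ G.Adj (e a) (e b)) (w : W) :
    (H.neighborSet w).ncard = (G.neighborSet (e w)).ncard := by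
  have e1 : G.neighborSet (e w) = e '' (H.neighborSet w) := by
    ext v
    simp only [SimpleGraph.mem_neighborSet, Set.mem_image]
    constructor
    · intro hv
      refine ⟨e.symm v, (h _ _).2 (by simpa using hv), by simp⟩
    · rintro ⟨x, hx, rfl⟩
      exact (h _ _).1 hx
  rw [e1, Set.ncard_image_of_injective _ e.injective]

/-! ### Correctness -/

theorem mem_vs {k : ℕ} {I : ℕ × List (ℕ × ℕ)} {q : Tup} :
    q ∈ vs k I ↔ q ∈ arcs I.1 I.2.length k := by
  rw [mem_arcs]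
  obtain ⟨x, t, i, j, l⟩ := q
  simp only [vs, List.mem_filter, mem_prodL, List.mem_range, decide_eq_true_eq, Valid]
  omega

theorem nodup_vs (k : ℕ) (I : ℕ × List (ℕ × ℕ)) : (vs k I).Nodup := by
  unfold vs
  refine List.Nodup.filter _ ?_
  exact nodup_prodL List.nodup_range (nodup_prodL List.nodup_range
    (nodup_prodL List.nodup_range (nodup_prodL List.nodup_range List.nodup_range)))

/-- The numbering of the arcs. -/
noncomputable def num (k : ℕ) (I : ℕ × List (ℕ × ℕ)) :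
    Fin (vs k I).length ≃ Arc I.1 I.2.length k :=
  ((nodup_vs k I).getEquiv (vs k I)).trans (Equiv.subtypeEquivRight fun _ => mem_vs)

theorem num_val (k : ℕ) (I : ℕ × List (ℕ × ℕ)) (a : Fin (vs k I).length) :
    (num k I a).1 = (vs k I).getD a dTup := by
  rw [List.getD_eq_getElem _ _ a.2]
  rfl

/-- The graph produced by the reduction. -/
noncomputable def redG (k : ℕ) (I : ℕ × List (ℕ × ℕ)) : SimpleGraph (Fin (vs k I).length) :=
  (graph I.1 I.2.length k (eaOf I) (ebOf I)).comap (num k I)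

theorem eqT_iff (a b : ℕ × ℕ × ℕ × ℕ) : eqT a b = true ↔ a = b := by
  obtain ⟨a1, a2, a3, a4⟩ := a
  obtain ⟨b1, b2, b3, b4⟩ := b
  simp [eqT]

theorem good_ends {I : ℕ × List (ℕ × ℕ)} (h : ColGood I) :
    (∀ t < I.2.length, eaOf I t < I.1) ∧ (∀ t < I.2.length, ebOf I t < I.1) ∧
      ∀ t < I.2.length, eaOf I t ≠ ebOf I t := by
  have h' := (forall_getD I.2 (0, 0) (fun e => e.1 < I.1 ∧ e.2 < I.1 ∧ e.1 ≠ e.2)).1 h
  exact ⟨fun t ht => (h' t ht).1, fun t ht => (h' t ht).2.1, fun t ht => (h' t ht).2.2⟩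

theorem matWord_redG {k : ℕ} (hk : 5 ≤ k) {I : ℕ × List (ℕ × ℕ)} (h : ColGood I) :
    matWord (redG k I) = red k I := by
  classical
  obtain ⟨h1, h2, h3⟩ := good_ends h
  refine matWord_eq _ (fun a b => adjB I ((vs k I).getD a dTup) ((vs k I).getD b dTup))
    fun u v => ?_
  rw [Bool.eq_iff_iff, decide_eq_true_eq]
  have hl := isLine (k := k) hk h1 h2 h3
  change _ ↔ (graph I.1 I.2.length k (eaOf I) (ebOf I)).Adj (num k I u) (num k I v)
  rw [hl.adj, ← num_val, ← num_val, adjB, Bool.or_eq_true, eqT_iff, eqT_iff]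
  rfl

theorem regular_redG {k : ℕ} (hk : 5 ≤ k) {I : ℕ × List (ℕ × ℕ)} (h : ColGood I)
    (v : Fin (vs k I).length) : ((redG k I).neighborSet v).ncard = 2 * k - 4 := by
  classical
  obtain ⟨h1, h2, h3⟩ := good_ends h
  have hl := isLine (k := k) hk h1 h2 h3
  rw [ncard_of_equiv (G := graph I.1 I.2.length k (eaOf I) (ebOf I)) (num k I)
    (fun _ _ => Iff.rfl) v]
  have e : (graph I.1 I.2.length k (eaOf I) (ebOf I)).neighborSet (num k I v) =
      ↑(Finset.univ.filter fun w =>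
        (graph I.1 I.2.length k (eaOf I) (ebOf I)).Adj (num k I v) w) := by
    ext w
    simp
  rw [e, Set.ncard_coe_finset, hl.card_adj]
  omega

theorem colk_iff {k : ℕ} (hk : 5 ≤ k) {I : ℕ × List (ℕ × ℕ)} (h : ColGood I) :
    Colk k I ↔ red k I ∈ starWords k := by
  obtain ⟨h1, h2, h3⟩ := good_ends h
  obtain ⟨p, rfl⟩ : ∃ p, k = p + 2 := ⟨k - 2, by omega⟩
  constructor
  · rintro ⟨c, hc⟩
    obtain ⟨f, hf⟩ := complete hk h1 h2 h3 c
      (fun t ht => (forall_getD I.2 (0, 0) (fun e => c e.1 ≠ c e.2)).1 hc t ht)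
    refine ⟨_, redG (p + 2) I, matWord_redG hk h, _, star_of_equiv (num (p + 2) I)
      (fun _ _ => Iff.rfl) hf⟩
  · rintro ⟨n, G, hG, f, hf⟩
    obtain ⟨rfl, e⟩ := matWord_inj (hG.trans (matWord_redG hk h).symm)
    dsimp only at e
    subst e
    have hf' := star_of_equiv (G := redG (p + 2) I)
      (H := graph I.1 I.2.length (p + 2) (eaOf I) (ebOf I)) (num (p + 2) I).symm
      (fun a b => by simp [redG]) hf
    obtain ⟨c, hc⟩ := sound (by omega) h1 h2 h3 _ hf'
    exact ⟨c, (forall_getD I.2 (0, 0) (fun e => c e.1 ≠ c e.2)).2 hc⟩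

/-- Star `k`-colourability of `(2k - 4)`-regular graphs is NP-hard for every `k ≥ 5`. -/
theorem hard {k : ℕ} (hk : 5 ≤ k) (L : Set (List Bool)) (hL : InNP L) :
    ∃ f : List Bool → List Bool,
      Nonempty (Turing.TM2ComputableInPolyTime (id : List Bool → List Bool)
        (id : List Bool → List Bool) f) ∧
      ∀ x, f x ∈ regularWords (2 * k - 4) ∧ (x ∈ L ↔ f x ∈ starWords k) := by
  obtain ⟨f, hf, hg, hx⟩ := nphp_colk k (by omega) L hL
  refine ⟨fun x => red k (f x), toTM2_words (PT.comp (PT_red k) hf), fun x => ⟨?_, ?_⟩⟩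
  · exact ⟨_, redG k (f x), matWord_redG hk (hg x), regular_redG hk (hg x)⟩
  · rw [hx, colk_iff hk (hg x)]

end Pool.Agent.H78.Star
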