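import Pool.Agent.H78.Star.Basic
import Pool.Agent.H78.NP.Word
import Pool.Agent.H78.NP.More

/-!
# Graphs as words; star colourability of regular graphs is in NP
-/

set_option autoImplicit false

namespace Pool.Agent.H78.Star

open Finset Pool.Agent.H79.Cx Pool.Agent.H78.NP

/-- A matrix written row by row. -/
def rows (m n : ℕ) (p : ℕ → ℕ → Bool) : List Bool :=
  (List.range m).flatMap fun u => (List.range n).map (p u)

theorem rows_succ (m n : ℕ) (p : ℕ → ℕ → Bool) :
    rows (m + 1) n p = rows m n p ++ (List.range n).map (p m) := by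
  simp [rows, List.range_succ]

theorem length_rows (m n : ℕ) (p : ℕ → ℕ → Bool) : (rows m n p).length = m * n := by
  induction m with
  | zero => simp [rows]
  | succ m ih =>
    rw [rows_succ, List.length_append, ih, List.length_map, List.length_range, Nat.succ_mul]

theorem getD_rows (m n : ℕ) (p : ℕ → ℕ → Bool) {u v : ℕ} (hu : u < m) (hv : v < n) :
    (rows m n p).getD (u * n + v) false = p u v := by
  induction m with
  | zero => omega
  | succ m ih =>
    rw [rows_succ]
    rcases Nat.lt_or_ge u m with h | h
    · have h1 : u * n + v < m * n := by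
        calc u * n + v < u * n + n := by omega
          _ = (u + 1) * n := by ring
          _ ≤ m * n := Nat.mul_le_mul_right _ h
      rw [List.getD_append _ _ _ _ (by rw [length_rows]; exact h1), ih h]
    · have h1 : u = m := by omega
      subst h1
      rw [List.getD_append_right _ _ _ _ (by rw [length_rows]; omega), length_rows]
      have h2 : u * n + v - u * n = v := by omega
      rw [h2, List.getD_eq_getElem _ _ (by simpa using hv)]
      simp

theorem ext_rows {n : ℕ} {w w' : List Bool} (h1 : w.length = n * n) (h2 : w'.length = n * n)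
    (h : ∀ u < n, ∀ v < n, w.getD (u * n + v) false = w'.getD (u * n + v) false) : w = w' := by
  apply List.ext_getElem (by omega)
  intro i hi hi'
  have hn : 0 < n := by
    rcases Nat.eq_zero_or_pos n with h0 | h0
    · subst h0; omega
    · exact h0
  have e : i / n * n + i % n = i := Nat.div_add_mod' i n
  have hu : i / n < n := by
    rw [Nat.div_lt_iff_lt_mul hn]
    omega
  have := h (i / n) hu (i % n) (Nat.mod_lt _ hn)
  rw [e, List.getD_eq_getElem _ _ hi, List.getD_eq_getElem _ _ hi'] at this
  exact this

open Classical in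
theorem matWord_eq {n : ℕ} (G : SimpleGraph (Fin n)) (p : ℕ → ℕ → Bool)
    (h : ∀ u v : Fin n, p u v = decide (G.Adj u v)) : matWord G = rows n n p := by
  unfold matWord rows
  have e1 : List.range n = (List.finRange n).map Fin.val := by simp
  rw [e1, List.flatMap_map]
  congr 1
  funext u
  rw [List.map_map]
  congr 1
  funext v
  exact (h u v).symm

theorem exists_matWord {n : ℕ} (G : SimpleGraph (Fin n)) : ∃ p : ℕ → ℕ → Bool,
    matWord G = rows n n p ∧ ∀ u v : Fin n, p u v = true ↔ G.Adj u v := by
  classical
  refine ⟨fun u v => decide (∃ (hu : u < n) (hv : v < n), G.Adj ⟨u, hu⟩ ⟨v, hv⟩), ?_, ?_⟩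
  · refine matWord_eq G _ fun u v => ?_
    congr 1
    exact propext ⟨fun ⟨_, _, h⟩ => h, fun h => ⟨u.2, v.2, h⟩⟩
  · intro u v
    rw [decide_eq_true_eq]
    exact ⟨fun ⟨_, _, h⟩ => h, fun h => ⟨u.2, v.2, h⟩⟩

theorem length_matWord {n : ℕ} (G : SimpleGraph (Fin n)) : (matWord G).length = n * n := by
  obtain ⟨p, hp, -⟩ := exists_matWord G
  rw [hp, length_rows]

theorem getD_matWord {n : ℕ} (G : SimpleGraph (Fin n)) (u v : Fin n) :
    (matWord G).getD (u * n + v) false = true ↔ G.Adj u v := by
  obtain ⟨p, hp, hp'⟩ := exists_matWord G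
  rw [hp, getD_rows n n p u.2 v.2]
  exact hp' u v

theorem matWord_inj {n n' : ℕ} {G : SimpleGraph (Fin n)} {G' : SimpleGraph (Fin n')}
    (h : matWord G = matWord G') : ∃ e : n = n', e ▸ G = G' := by
  have h1 : n * n = n' * n' := by
    rw [← length_matWord G, ← length_matWord G', h]
  have h2 : n = n' := Nat.mul_self_inj.1 h1
  subst h2
  refine ⟨rfl, ?_⟩
  ext u v
  change G.Adj u v ↔ G'.Adj u v
  rw [← getD_matWord, ← getD_matWord, h]

theorem mem_inter_iff {d k : ℕ} {w : List Bool} :
    w ∈ regularWords d ∩ starWords k ↔ ∃ (n : ℕ) (G : SimpleGraph (Fin n)), matWord G = w ∧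
      (∀ v, (G.neighborSet v).ncard = d) ∧ ∃ f : Fin n → Fin k, IsStarColouring G f := by
  constructor
  · rintro ⟨⟨n, G, h1, h2⟩, ⟨n', G', h1', f, hf⟩⟩
    obtain ⟨rfl, e⟩ := matWord_inj (h1.trans h1'.symm)
    dsimp only at e
    subst e
    exact ⟨n, G, h1, h2, f, hf⟩
  · rintro ⟨n, G, h1, h2, h3⟩
    exact ⟨⟨n, G, h1, h2⟩, ⟨n, G, h1, h3⟩⟩

/-! ### The verifier -/

/-- The number of vertices. -/
def dimOf (w : List Bool) : ℕ :=
  findFirst (w.length + 1) fun n => decide (n * n = w.length)

/-- The entries of the matrix. -/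
def ent (w : List Bool) (u v : ℕ) : Bool := w.getD (u * dimOf w + v) false

/-- The colour of a vertex. -/
def colOf (k : ℕ) (c : List Bool) (v : ℕ) : ℕ :=
  findFirst (k - 1) fun i => c.getD (v * (k - 1) + i) false

/-- The test of a graph and a colouring. -/
def check (k d : ℕ) (p : List Bool × List Bool) : Bool :=
  decide (dimOf p.1 * dimOf p.1 = p.1.length) &&
  (List.range (dimOf p.1)).all fun a =>
    !(ent p.1 a a) &&
    decide (((List.range (dimOf p.1)).filter fun b => ent p.1 a b).length = d) &&
    (List.range (dimOf p.1)).all fun b =>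
      (!(ent p.1 a b) || (ent p.1 b a && !(decide (colOf k p.2 a = colOf k p.2 b)))) &&
      (List.range (dimOf p.1)).all fun c =>
        (List.range (dimOf p.1)).all fun e =>
          !(ent p.1 a b && ent p.1 b c && ent p.1 c e && !(decide (a = c)) &&
            !(decide (b = e)) && decide (colOf k p.2 a = colOf k p.2 c) &&
            decide (colOf k p.2 b = colOf k p.2 e))

@[fun_prop]
theorem PT.dimOf {α : Type} [Enc α] {f : α → List Bool} (hf : PT f) :
    PT (fun x => dimOf (f x)) := by
  unfold Star.dimOf
  fun_prop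

@[fun_prop]
theorem PT.ent {α : Type} [Enc α] {f : α → List Bool} {g h : α → ℕ} (hf : PT f) (hg : PT g)
    (hh : PT h) : PT (fun x => ent (f x) (g x) (h x)) := by
  unfold Star.ent
  fun_prop

@[fun_prop]
theorem PT.colOf {α : Type} [Enc α] (k : ℕ) {f : α → List Bool} {g : α → ℕ} (hf : PT f)
    (hg : PT g) : PT (fun x => colOf k (f x) (g x)) := by
  unfold Star.colOf
  fun_prop

theorem PT_check (k d : ℕ) : PT (check k d) := by
  unfold check
  fun_prop

theorem dimOf_eq {w : List Bool} {n : ℕ} (h : n * n = w.length) : dimOf w = n := by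
  refine findFirst_spec ?_ (by simpa using h) ?_
  · have := Nat.le_mul_self n
    omega
  · intro i hi
    rw [decide_eq_false_iff_not]
    intro e
    have : i * i = n * n := e.trans h.symm
    have := Nat.mul_self_inj.1 this
    omega

theorem findFirst_le (n : ℕ) (p : ℕ → Bool) : findFirst n p ≤ n := by
  have := findFirst_aux (List.range n).reverse p n n le_rfl (by
    intro i hi
    simp at hi
    omega)
  exact this

theorem findFirst_none {n : ℕ} {p : ℕ → Bool} (h : ∀ i < n, p i = false) :
    findFirst n p = n := by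
  unfold findFirst
  have key : ∀ (l : List ℕ) (s : ℕ), (∀ i ∈ l, p i = false) →
      l.foldl (fun s i => if p i = true then i else s) s = s := by
    intro l
    induction l with
    | nil => intro s _; rfl
    | cons b l ih =>
      intro s hl
      rw [List.foldl_cons, if_neg (by simp [hl b (by simp)])]
      exact ih s fun i hi => hl i (by simp [hi])
  refine key _ _ fun i hi => ?_
  simp only [List.mem_reverse, List.mem_range] at hi
  exact h i hi

theorem colOf_lt {k : ℕ} (hk : 0 < k) (c : List Bool) (v : ℕ) : colOf k c v < k := by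
  have := findFirst_le (k - 1) fun i => c.getD (v * (k - 1) + i) false
  unfold colOf
  omega

theorem colOf_eq {k n : ℕ} (f : Fin n → Fin k) (v : Fin n) :
    colOf k (rows n (k - 1) fun v i => decide (∃ h : v < n, (f ⟨v, h⟩ : ℕ) = i)) v = f v := by
  have e : ∀ i < k - 1, (rows n (k - 1) fun v i =>
      decide (∃ h : v < n, (f ⟨v, h⟩ : ℕ) = i)).getD (v * (k - 1) + i) false =
      decide ((f v : ℕ) = i) := by
    intro i hi
    rw [getD_rows _ _ _ v.2 hi]
    congr 1
    exact propext ⟨fun ⟨_, h⟩ => h, fun h => ⟨v.2, h⟩⟩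
  unfold colOf
  have hlt := (f v).2
  rcases Nat.lt_or_ge (f v : ℕ) (k - 1) with h | h
  · refine findFirst_spec h ?_ ?_
    · rw [e _ h]
      simp
    · intro i hi
      rw [e i (by omega), decide_eq_false_iff_not]
      omega
  · rw [findFirst_none]
    · omega
    · intro i hi
      rw [e i hi, decide_eq_false_iff_not]
      omega

theorem ncard_nb {n : ℕ} (G : SimpleGraph (Fin n)) (p : ℕ → Bool) (v : Fin n)
    (h : ∀ u : Fin n, p u = true ↔ G.Adj v u) :
    (G.neighborSet v).ncard = ((List.range n).filter p).length := by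
  have e1 : G.neighborSet v = ↑(Finset.univ.filter fun u : Fin n => p u = true) := by
    ext u
    simp [h u]
  have e2 : List.range n = (List.finRange n).map Fin.val := by simp
  have e3 : List.filter (p ∘ Fin.val) (List.finRange n) =
      List.filter (fun u : Fin n => decide (p u = true)) (List.finRange n) := by
    congr 1
    funext u
    simp
  rw [e1, Set.ncard_coe_finset, e2, List.filter_map, List.length_map, e3]
  rfl

theorem check_iff {k d : ℕ} (hk : 0 < k) (w c : List Bool) :
    check k d (w, c) = true ↔ ∃ (n : ℕ) (G : SimpleGraph (Fin n)), matWord G = w ∧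
      (∀ v, (G.neighborSet v).ncard = d) ∧
      IsStarColouring G (fun v => (⟨colOf k c v, colOf_lt hk c v⟩ : Fin k)) := by
  simp only [check, Bool.and_eq_true, List.all_eq_true, List.mem_range, Bool.not_eq_true',
    Bool.or_eq_true, decide_eq_true_eq, Bool.and_eq_false_iff, decide_eq_false_iff_not,
    Bool.not_eq_false']
  constructor
  · rintro ⟨hn, h⟩
    set n := dimOf w with hn'
    let G : SimpleGraph (Fin n) :=
      { Adj := fun u v => ent w u v = true
        symm := ⟨fun u v huv => by
          rcases ((h u u.2).2 v v.2).1 with h1 | h1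
          · rw [huv] at h1
            exact absurd h1 (by simp)
          · exact h1.1⟩
        loopless := ⟨fun u hu => by
          have := (h u u.2).1.1
          rw [hu] at this
          exact absurd this (by simp)⟩ }
    refine ⟨n, G, ?_, ?_, ?_⟩
    · apply ext_rows (length_matWord G) hn.symm
      intro u hu v hv
      have h1 := getD_matWord G ⟨u, hu⟩ ⟨v, hv⟩
      dsimp only at h1
      have h2 : ent w u v = w.getD (u * n + v) false := rfl
      rw [← h2]
      exact Bool.eq_iff_iff.2 h1
    · intro v
      rw [ncard_nb G (fun u => ent w v u) v (fun u => Iff.rfl)]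
      exact (h v v.2).1.2
    · apply isStarColouring_of
      · intro u v huv he
        have he' : colOf k c u = colOf k c v := congrArg Fin.val he
        rcases ((h u u.2).2 v v.2).1 with h1 | h1
        · have : ent w u v = true := huv
          rw [this] at h1
          exact absurd h1 (by simp)
        · exact h1.2 he'
      · intro a b x e hab hbx hxe hax hbe h1 h2
        have h1' : colOf k c a = colOf k c x := congrArg Fin.val h1
        have h2' : colOf k c b = colOf k c e := congrArg Fin.val h2
        have hab' : ent w a b = true := hab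
        have hbx' : ent w b x = true := hbx
        have hxe' : ent w x e = true := hxe
        have h3 := ((h a a.2).2 b b.2).2 x x.2 e e.2
        simp only [hab', hbx', hxe', h1', h2', Fin.val_inj, hax, hbe] at h3
        simp at h3
  · rintro ⟨n, G, rfl, h1, h2⟩
    have hn : dimOf (matWord G) = n := dimOf_eq (length_matWord G).symm
    have he : ∀ (u v : ℕ) (hu : u < n) (hv : v < n),
        ent (matWord G) u v = true ↔ G.Adj ⟨u, hu⟩ ⟨v, hv⟩ := by
      intro u v hu hv
      unfold ent
      rw [hn]
      exact getD_matWord G ⟨u, hu⟩ ⟨v, hv⟩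
    have hf : ∀ (u v : ℕ) (hu : u < n) (hv : v < n),
        ent (matWord G) u v = false ↔ ¬ G.Adj ⟨u, hu⟩ ⟨v, hv⟩ := by
      intro u v hu hv
      rw [← he u v hu hv]
      simp
    rw [hn]
    refine ⟨(length_matWord G).symm, fun a ha => ⟨⟨?_, ?_⟩, fun b hb => ⟨?_, ?_⟩⟩⟩
    · rw [hf a a ha ha]
      exact G.loopless.1 _
    · rw [← h1 ⟨a, ha⟩]
      exact (ncard_nb G _ ⟨a, ha⟩ fun u => he a u ha u.2).symm
    · by_cases hab : G.Adj ⟨a, ha⟩ ⟨b, hb⟩
      · right
        refine ⟨(he b a hb ha).2 hab.symm, fun e => ?_⟩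
        exact h2.1 _ _ hab (Fin.ext e)
      · left
        exact (hf a b ha hb).2 hab
    · intro x hx e he'
      by_contra hcon
      push Not at hcon
      obtain ⟨⟨⟨⟨⟨⟨g1, g2⟩, g3⟩, g4⟩, g5⟩, g6⟩, g7⟩ := hcon
      have k1 : G.Adj ⟨a, ha⟩ ⟨b, hb⟩ := (he a b ha hb).1 (by simpa using g1)
      have k2 : G.Adj ⟨b, hb⟩ ⟨x, hx⟩ := (he b x hb hx).1 (by simpa using g2)
      have k3 : G.Adj ⟨x, hx⟩ ⟨e, he'⟩ := (he x e hx he').1 (by simpa using g3)
      exact h2.path k1 k2 k3 (fun hh => g4 (congrArg Fin.val hh))
        (fun hh => g5 (congrArg Fin.val hh)) (Fin.ext g6) (Fin.ext g7)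

/-- Star `k`-colourability of `d`-regular graphs is in NP. -/
theorem inNP_star (k d : ℕ) (hk : 0 < k) : InNP (regularWords d ∩ starWords k) := by
  refine inNP_of_PT (Polynomial.C (k - 1) * Polynomial.X) (check k d) (PT_check k d)
    fun w => ?_
  rw [mem_inter_iff]
  constructor
  · rintro ⟨n, G, h1, h2, f, hf⟩
    refine ⟨rows n (k - 1) fun v i => decide (∃ h : v < n, (f ⟨v, h⟩ : ℕ) = i), ?_, ?_⟩
    · rw [length_rows, ← h1, length_matWord]
      simp only [Polynomial.eval_mul, Polynomial.eval_C, Polynomial.eval_X]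
      rw [Nat.mul_comm]
      exact Nat.mul_le_mul_left _ (Nat.le_mul_self n)
    · rw [check_iff hk]
      refine ⟨n, G, h1, h2, ?_⟩
      have e : (fun v : Fin n => (⟨colOf k (rows n (k - 1) fun v i =>
          decide (∃ h : v < n, (f ⟨v, h⟩ : ℕ) = i)) v, colOf_lt hk _ v⟩ : Fin k)) = f := by
        funext v
        exact Fin.ext (colOf_eq f v)
      rw [e]
      exact hf
  · rintro ⟨c, -, hc⟩
    obtain ⟨n, G, h1, h2, h3⟩ := (check_iff hk w c).1 hc
    exact ⟨n, G, h1, h2, _, h3⟩

/-- The test of a regular graph. -/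
def checkR (d : ℕ) (w : List Bool) : Bool :=
  decide (dimOf w * dimOf w = w.length) &&
  (List.range (dimOf w)).all fun a =>
    !(ent w a a) &&
    decide (((List.range (dimOf w)).filter fun b => ent w a b).length = d) &&
    (List.range (dimOf w)).all fun b => (!(ent w a b) || ent w b a)

theorem PT_checkR (d : ℕ) : PT (checkR d) := by
  unfold checkR
  fun_prop

theorem checkR_iff {d : ℕ} (w : List Bool) : checkR d w = true ↔ w ∈ regularWords d := by
  simp only [checkR, Bool.and_eq_true, List.all_eq_true, List.mem_range, Bool.not_eq_true',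
    Bool.or_eq_true, decide_eq_true_eq, regularWords, Set.mem_ofPred_eq]
  constructor
  · rintro ⟨hn, h⟩
    set n := dimOf w with hn'
    let G : SimpleGraph (Fin n) :=
      { Adj := fun u v => ent w u v = true
        symm := ⟨fun u v huv => by
          rcases (h u u.2).2 v v.2 with h1 | h1
          · rw [huv] at h1
            exact absurd h1 (by simp)
          · exact h1⟩
        loopless := ⟨fun u hu => by
          have := (h u u.2).1.1
          rw [hu] at this
          exact absurd this (by simp)⟩ }
    refine ⟨n, G, ?_, ?_⟩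
    · apply ext_rows (length_matWord G) hn.symm
      intro u hu v hv
      have h1 := getD_matWord G ⟨u, hu⟩ ⟨v, hv⟩
      dsimp only at h1
      have h2 : ent w u v = w.getD (u * n + v) false := rfl
      rw [← h2]
      exact Bool.eq_iff_iff.2 h1
    · intro v
      rw [ncard_nb G (fun u => ent w v u) v (fun u => Iff.rfl)]
      exact (h v v.2).1.2
  · rintro ⟨n, G, rfl, h1⟩
    have hn : dimOf (matWord G) = n := dimOf_eq (length_matWord G).symm
    have he : ∀ (u v : ℕ) (hu : u < n) (hv : v < n),
        ent (matWord G) u v = true ↔ G.Adj ⟨u, hu⟩ ⟨v, hv⟩ := by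
      intro u v hu hv
      unfold ent
      rw [hn]
      exact getD_matWord G ⟨u, hu⟩ ⟨v, hv⟩
    have hf : ∀ (u v : ℕ) (hu : u < n) (hv : v < n),
        ent (matWord G) u v = false ↔ ¬ G.Adj ⟨u, hu⟩ ⟨v, hv⟩ := by
      intro u v hu hv
      rw [← he u v hu hv]
      simp
    rw [hn]
    refine ⟨(length_matWord G).symm, fun a ha => ⟨⟨?_, ?_⟩, fun b hb => ?_⟩⟩
    · rw [hf a a ha ha]
      exact G.loopless.1 _
    · rw [← h1 ⟨a, ha⟩]
      exact (ncard_nb G _ ⟨a, ha⟩ fun u => he a u ha u.2).symm
    · by_cases hab : G.Adj ⟨a, ha⟩ ⟨b, hb⟩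
      · right
        exact (he b a hb ha).2 hab.symm
      · left
        exact (hf a b ha hb).2 hab

/-- Regularity of graphs can be tested in polynomial time. -/
theorem inP_regularWords (d : ℕ) : InP (regularWords d) :=
  inP_of_PT (checkR d) (PT_checkR d) fun w => (checkR_iff w).symm

end Pool.Agent.H78.Star
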